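import Pool.Agent.SGI.Basic

set_option autoImplicit false

/-!
# Greatest prime factor, the size of `σ`, and `f (m P)`
-/

namespace Pool.Agent.SGJ

open Finset Pool.Agent.SGI

/-- the greatest prime factor (`0` for `n ≤ 1`) -/
def gpf (n : ℕ) : ℕ := n.primeFactors.sup id

lemma le_gpf {n p : ℕ} (hn : n ≠ 0) (hp : p.Prime) (h : p ∣ n) : p ≤ gpf n :=
  Finset.le_sup (f := id) (Nat.mem_primeFactors.2 ⟨hp, h, hn⟩)

lemma gpf_mem {n : ℕ} (hn : 2 ≤ n) : gpf n ∈ n.primeFactors := by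
  have hne : n.primeFactors.Nonempty := Nat.nonempty_primeFactors.2 (by omega)
  obtain ⟨p, hp, h⟩ := Finset.exists_mem_eq_sup n.primeFactors hne id
  unfold gpf
  rw [h]
  exact hp

lemma gpf_prime {n : ℕ} (hn : 2 ≤ n) : (gpf n).Prime := Nat.prime_of_mem_primeFactors (gpf_mem hn)

lemma gpf_dvd {n : ℕ} (hn : 2 ≤ n) : gpf n ∣ n := Nat.dvd_of_mem_primeFactors (gpf_mem hn)

lemma gpf_le {n : ℕ} (hn : 2 ≤ n) : gpf n ≤ n := Nat.le_of_dvd (by omega) (gpf_dvd hn)

/-- `n = m P` with `P` prime larger than `m` -/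
lemma gpf_mul {m P : ℕ} (hm : 1 ≤ m) (hP : P.Prime) (h : m < P) : gpf (m * P) = P := by
  have h0 : m * P ≠ 0 := Nat.mul_ne_zero (by omega) hP.ne_zero
  have h2 : 2 ≤ m * P := le_trans hP.two_le (Nat.le_mul_of_pos_left _ (by omega))
  refine le_antisymm ?_ (le_gpf h0 hP (dvd_mul_left _ _))
  have h3 := gpf_prime h2
  rcases (h3.dvd_mul).1 (gpf_dvd h2) with h4 | h4
  · have := Nat.le_of_dvd (by omega) h4
    omega
  · exact Nat.le_of_dvd hP.pos h4

lemma sigma_pos {n : ℕ} (hn : 1 ≤ n) : 1 ≤ ArithmeticFunction.sigma 1 n := by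
  rw [ArithmeticFunction.sigma_one_apply]
  exact Finset.single_le_sum (f := fun d => d) (fun _ _ => Nat.zero_le _)
    (Nat.one_mem_divisors.2 (by omega)) |>.trans' le_rfl

/-- `σ (m P) = σ m (P + 1)` -/
lemma sigma_mul {m P : ℕ} (hP : P.Prime) (h : ¬ P ∣ m) :
    ArithmeticFunction.sigma 1 (m * P) = ArithmeticFunction.sigma 1 m * (P + 1) := by
  rw [ArithmeticFunction.isMultiplicative_sigma.map_mul_of_coprime
    ((Nat.Prime.coprime_iff_not_dvd hP).2 h).symm, sigma_prime hP]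

lemma ff_succ {n : ℕ} (hn : 1 ≤ n) : ff n + 1 = ArithmeticFunction.sigma 1 n := by
  unfold ff
  have := sigma_pos hn
  omega

/-- `σ n ≤ n (1 + log n)` -/
lemma sigma_le (n : ℕ) (hn : 1 ≤ n) :
    (ArithmeticFunction.sigma 1 n : ℝ) ≤ n * (1 + Real.log n) := by
  rw [ArithmeticFunction.sigma_one_apply]
  have h1 : ((∑ d ∈ n.divisors, d : ℕ) : ℝ) = ∑ d ∈ n.divisors, (n : ℝ) / d := by
    push_cast
    rw [← Nat.sum_div_divisors n (fun d => (d : ℝ))]
    refine Finset.sum_congr rfl fun d hd => ?_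
    have hd' := Nat.dvd_of_mem_divisors hd
    rw [Nat.cast_div hd' (by
      have := Nat.pos_of_mem_divisors hd
      exact_mod_cast this.ne')]
  rw [h1]
  have h2 : ∑ d ∈ n.divisors, (n : ℝ) / d ≤ ∑ d ∈ Finset.Icc 1 n, (n : ℝ) / d := by
    apply Finset.sum_le_sum_of_subset_of_nonneg
    · intro d hd
      exact Finset.mem_Icc.2 ⟨Nat.pos_of_mem_divisors hd, Nat.divisor_le hd⟩
    · intro d _ _
      positivity
  refine h2.trans ?_
  have h3 : ∑ d ∈ Finset.Icc 1 n, (n : ℝ) / d = n * (harmonic n : ℝ) := by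
    rw [harmonic_eq_sum_Icc]
    push_cast
    rw [Finset.mul_sum]
    refine Finset.sum_congr rfl fun d _ => ?_
    rw [div_eq_mul_inv]
  rw [h3]
  exact mul_le_mul_of_nonneg_left (harmonic_le_one_add_log n) (by positivity)

end Pool.Agent.SGJ
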