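import Pool.Agent.SGJ.Triple
import Pool.Agent.SGJ.Basic

set_option autoImplicit false

/-!
# The number of primes in one cell `(m, b)`
-/

namespace Pool.Agent.SGJ

open Finset Pool.Agent.SGI

/-- powers of the logarithm are smaller than small powers -/
lemma log_pow_le (k : ℕ) (c : ℝ) (hc : 0 < c) : ∃ X₀ : ℕ, ∀ X : ℕ, X₀ ≤ X →
    Real.log X ^ k ≤ (X : ℝ) ^ c := by
  have h := (isLittleO_log_rpow_rpow_atTop (k : ℝ) hc).bound (show (0 : ℝ) < 1 by norm_num)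
  obtain ⟨A, hA⟩ := Filter.eventually_atTop.1 h
  refine ⟨⌈A⌉₊ + 1, fun X hX => ?_⟩
  have h1 : A ≤ (X : ℝ) := (Nat.le_ceil A).trans (by exact_mod_cast (by omega : ⌈A⌉₊ ≤ X))
  have h2 := hA X h1
  have hX1 : (1 : ℝ) ≤ X := by exact_mod_cast (by omega : 1 ≤ X)
  have h3 : 0 ≤ Real.log X := Real.log_nonneg hX1
  rw [Real.norm_of_nonneg (Real.rpow_nonneg h3 _), Real.norm_of_nonneg (by positivity), one_mul,
    Real.rpow_natCast] at h2
  exact h2

/-- pair of forms `P`, `a (P+1) - 1` -/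
theorem pair2 : ∃ C : ℝ, 0 < C ∧ ∀ Y z a : ℕ, 2 ≤ z → 2 ≤ a →
    (((Icc 1 Y).filter (fun P => P.Prime ∧ z < P ∧ (a * (P + 1) - 1).Prime ∧
      z < a * (P + 1) - 1)).card : ℝ) ≤
      C * (Y + 1 : ℕ) * (∏ p ∈ (a * (a - 1)).primeFactors, (1 + (2 : ℝ) / p)) / Real.log z ^ 2 +
        (z : ℝ) ^ 6 := by
  classical
  obtain ⟨C, hC, h⟩ := lin_sieve 2 (by norm_num)
  refine ⟨C, hC, fun Y z a hz ha => ?_⟩
  have e1 : ((a - 1 : ℕ) : ℤ) = a - 1 := by push_cast [Nat.cast_sub (show 1 ≤ a by omega)]; ring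
  have h1 := h (Y + 1) z (a * (a - 1)) ![1, a] ![0, a - 1] hz (Nat.mul_pos (by omega) (by omega))
    (by
      intro p hp hpd
      have h2 : ¬ p ∣ a := fun h' => hpd (h'.mul_right _)
      have h3 : ¬ p ∣ a - 1 := fun h' => hpd (h'.mul_left _)
      have k1 : ¬ (p : ℤ) ∣ (a : ℤ) - 1 := by
        rw [← e1]
        intro h'
        exact h3 (Int.natCast_dvd_natCast.1 h')
      constructor
      · intro i
        fin_cases i
        · change ¬ p ∣ 1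
          exact fun h' => hp.one_lt.ne' (Nat.dvd_one.1 h')
        · exact h2
      · intro i j hij
        fin_cases i <;> fin_cases j
        · exact absurd rfl hij
        · change ¬ (p : ℤ) ∣ ((1 : ℕ) : ℤ) * ((a - 1 : ℕ) : ℤ) - (a : ℤ) * ((0 : ℕ) : ℤ)
          rw [e1]
          simpa using k1
        · change ¬ (p : ℤ) ∣ (a : ℤ) * ((0 : ℕ) : ℤ) - ((1 : ℕ) : ℤ) * ((a - 1 : ℕ) : ℤ)
          rw [e1, show (a : ℤ) * ((0 : ℕ) : ℤ) - ((1 : ℕ) : ℤ) * ((a : ℤ) - 1) = -((a : ℤ) - 1) by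
            push_cast; ring, dvd_neg]
          exact k1
        · exact absurd rfl hij)
  refine le_trans ?_ (h1.trans (le_of_eq ?_))
  · have h2 : ((Icc 1 Y).filter (fun P => P.Prime ∧ z < P ∧ (a * (P + 1) - 1).Prime ∧
        z < a * (P + 1) - 1)).card ≤
        ((range (Y + 1)).filter (fun t => ∀ i : Fin 2,
          ((![1, a] : Fin 2 → ℕ) i * t + (![0, a - 1] : Fin 2 → ℕ) i).Prime ∧
          z < (![1, a] : Fin 2 → ℕ) i * t + (![0, a - 1] : Fin 2 → ℕ) i)).card := by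
      apply card_le_card
      intro P hP
      rw [mem_filter, mem_Icc] at hP
      obtain ⟨⟨hP1, hPY⟩, hPp, hPz, hQp, hQz⟩ := hP
      rw [mem_filter, mem_range]
      refine ⟨by omega, fun i => ?_⟩
      have h3 : a * (P + 1) - 1 = a * P + (a - 1) := by
        rw [Nat.mul_add, Nat.mul_one]
        omega
      fin_cases i
      · change (1 * P + 0).Prime ∧ z < 1 * P + 0
        rw [one_mul, add_zero]
        exact ⟨hPp, hPz⟩
      · change (a * P + (a - 1)).Prime ∧ z < a * P + (a - 1)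
        rw [← h3]
        exact ⟨hQp, hQz⟩
    exact_mod_cast h2
  · norm_num

/-- the sifting level -/
noncomputable def zz (ε : ℝ) (X : ℕ) : ℕ := ⌊(X : ℝ) ^ (ε / 48)⌋₊

lemma params (ε : ℝ) (hε : 0 < ε) : ∃ X₀ : ℕ, ∀ X : ℕ, X₀ ≤ X →
    16 ≤ X ∧ 2 ≤ zz ε X ∧ ε / 96 * Real.log X ≤ Real.log (zz ε X) ∧
    (zz ε X : ℝ) ^ 6 ≤ (X : ℝ) ^ (ε / 8) ∧ Real.log X ^ 3 ≤ (X : ℝ) ^ (3 * ε / 8) ∧
    1 ≤ Real.log (Real.log X) ∧ Real.log X ≤ zz ε X ∧
    (zz ε X : ℝ) * (2 * Real.log X) ≤ (X : ℝ) ^ (ε / 2) := by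
  obtain ⟨X₁, h1⟩ := log_pow_le 3 (3 * ε / 8) (by positivity)
  obtain ⟨X₂, h2⟩ := log_pow_le 2 (ε / 96) (by positivity)
  refine ⟨X₁ + X₂ + 16 + ⌈Real.exp (Real.exp 1)⌉₊ + ⌈(2 : ℝ) ^ (96 / ε)⌉₊, fun X hX => ?_⟩
  have hX16 : 16 ≤ X := by omega
  have hX0 : (0 : ℝ) < X := by exact_mod_cast (by omega : 0 < X)
  have hX1 : (1 : ℝ) ≤ X := by exact_mod_cast (by omega : 1 ≤ X)
  have hexp : Real.exp (Real.exp 1) ≤ X :=
    (Nat.le_ceil _).trans (by exact_mod_cast (by omega : ⌈Real.exp (Real.exp 1)⌉₊ ≤ X))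
  have hL : Real.exp 1 ≤ Real.log X := by
    rw [Real.le_log_iff_exp_le hX0]
    exact hexp
  have hL0 : 0 < Real.log X := lt_of_lt_of_le (Real.exp_pos 1) hL
  have hL2 : 2 ≤ Real.log X := by
    have := Real.exp_one_gt_d9
    linarith
  have h2X : (2 : ℝ) ≤ (X : ℝ) ^ (ε / 96) := by
    have h3 : (2 : ℝ) ^ (96 / ε) ≤ X :=
      (Nat.le_ceil _).trans (by exact_mod_cast (by omega : ⌈(2 : ℝ) ^ (96 / ε)⌉₊ ≤ X))
    have h4 := Real.rpow_le_rpow (by positivity) h3 (show 0 ≤ ε / 96 by positivity)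
    rw [← Real.rpow_mul (by norm_num)] at h4
    have h5 : 96 / ε * (ε / 96) = 1 := by field_simp
    rw [h5, Real.rpow_one] at h4
    exact h4
  have hsplit : (X : ℝ) ^ (ε / 48) = (X : ℝ) ^ (ε / 96) * (X : ℝ) ^ (ε / 96) := by
    rw [← Real.rpow_add hX0]
    congr 1
    ring
  have hXc0 : 0 < (X : ℝ) ^ (ε / 96) := by positivity
  have hfl : (X : ℝ) ^ (ε / 96) ≤ zz ε X := by
    unfold zz
    have h3 : (X : ℝ) ^ (ε / 48) < ⌊(X : ℝ) ^ (ε / 48)⌋₊ + 1 := Nat.lt_floor_add_one _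
    rw [hsplit] at h3
    have h4 : 2 * (X : ℝ) ^ (ε / 96) ≤ (X : ℝ) ^ (ε / 96) * (X : ℝ) ^ (ε / 96) :=
      mul_le_mul_of_nonneg_right h2X hXc0.le
    rw [← hsplit] at h3 h4
    linarith
  have hup : (zz ε X : ℝ) ≤ (X : ℝ) ^ (ε / 48) := Nat.floor_le (by positivity)
  have hL2' : Real.log X ^ 2 ≤ (X : ℝ) ^ (ε / 96) := h2 X (by omega)
  have hLle : Real.log X ≤ Real.log X ^ 2 := by nlinarith
  refine ⟨hX16, ?_, ?_, ?_, h1 X (by omega), ?_, ?_, ?_⟩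
  · have : (2 : ℝ) ≤ zz ε X := h2X.trans hfl
    exact_mod_cast this
  · rw [← Real.log_rpow hX0]
    exact Real.log_le_log hXc0 hfl
  · calc (zz ε X : ℝ) ^ 6 ≤ ((X : ℝ) ^ (ε / 48)) ^ 6 := pow_le_pow_left₀ (by positivity) hup 6
      _ = (X : ℝ) ^ (ε / 8) := by
        rw [← Real.rpow_natCast, ← Real.rpow_mul hX0.le]
        congr 1
        push_cast
        ring
  · rw [Real.le_log_iff_exp_le hL0]
    exact hL
  · linarith
  · calc (zz ε X : ℝ) * (2 * Real.log X) ≤ (X : ℝ) ^ (ε / 48) * (X : ℝ) ^ (ε / 96) := by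
          gcongr
          nlinarith
      _ = (X : ℝ) ^ (ε / 48 + ε / 96) := by rw [← Real.rpow_add hX0]
      _ ≤ (X : ℝ) ^ (ε / 2) := Real.rpow_le_rpow_of_exponent_le hX1 (by linarith)

/-- `∏ (1 + k/p)` over the primes dividing an integer `≤ X^14` -/
lemma prod_le (k : ℕ) : ∃ C : ℝ, 0 < C ∧ ∀ X Δ : ℕ, 16 ≤ X → 1 ≤ Real.log (Real.log X) → 1 ≤ Δ →
    Δ ≤ X ^ 14 →
    ∏ p ∈ Δ.primeFactors, (1 + (k : ℝ) / p) ≤ C * Real.log (Real.log X) ^ k := by
  obtain ⟨C, hC, h⟩ := HP.del k 14 (by norm_num)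
  refine ⟨C * 2 ^ k, by positivity, fun X Δ hX hLL hΔ hle => ?_⟩
  have hX0 : (0 : ℝ) < X := by exact_mod_cast (by omega : 0 < X)
  have hL0 : 0 < Real.log X := by
    by_contra hc
    have h1 : 0 ≤ Real.log X := Real.log_nonneg (by exact_mod_cast (by omega : 1 ≤ X))
    have h2 : Real.log X = 0 := by linarith
    rw [h2, Real.log_zero] at hLL
    norm_num at hLL
  have hL : Real.exp 1 ≤ Real.log X := by
    rw [← Real.le_log_iff_exp_le hL0]
    exact hLL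
  have hL2 : 2 < Real.log X := by
    have := Real.exp_one_gt_d9
    linarith
  have hE3 : 3 ≤ ⌈Real.log X⌉₊ := by
    have : (2 : ℝ) < ⌈Real.log X⌉₊ := lt_of_lt_of_le hL2 (Nat.le_ceil _)
    have h2 : 2 < ⌈Real.log X⌉₊ := by exact_mod_cast this
    omega
  have h1 := h ⌈Real.log X⌉₊ Δ hE3 hΔ (by
    have h2 : (Δ : ℝ) ≤ (X : ℝ) ^ 14 := by exact_mod_cast hle
    refine h2.trans ?_
    have h3 : (X : ℝ) ≤ (10 : ℝ) ^ (⌈Real.log X⌉₊ : ℝ) := by
      calc (X : ℝ) = Real.exp (Real.log X) := (Real.exp_log hX0).symm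
        _ ≤ Real.exp (⌈Real.log X⌉₊ : ℝ) := Real.exp_le_exp.2 (Nat.le_ceil _)
        _ = (Real.exp 1) ^ (⌈Real.log X⌉₊ : ℝ) := by rw [← Real.exp_mul, one_mul]
        _ ≤ (10 : ℝ) ^ (⌈Real.log X⌉₊ : ℝ) := by
            apply Real.rpow_le_rpow (Real.exp_pos 1).le _ (by positivity)
            have := Real.exp_one_lt_d9
            linarith
    calc (X : ℝ) ^ 14 ≤ ((10 : ℝ) ^ (⌈Real.log X⌉₊ : ℝ)) ^ 14 := pow_le_pow_left₀ hX0.le h3 14
      _ = (10 : ℝ) ^ (14 * (⌈Real.log X⌉₊ : ℝ)) := by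
        rw [← Real.rpow_natCast ((10 : ℝ) ^ _) 14, ← Real.rpow_mul (by norm_num)]
        congr 1
        push_cast
        ring)
  refine h1.trans ?_
  have h2 : Real.log (⌈Real.log X⌉₊ : ℝ) ≤ 2 * Real.log (Real.log X) := by
    have h3 : ((⌈Real.log X⌉₊ : ℕ) : ℝ) ≤ Real.log X ^ 2 := by
      have := (Nat.ceil_lt_add_one hL0.le).le
      nlinarith
    calc Real.log (⌈Real.log X⌉₊ : ℝ) ≤ Real.log (Real.log X ^ 2) :=
          Real.log_le_log (by exact_mod_cast (by omega : 0 < ⌈Real.log X⌉₊)) h3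
      _ = 2 * Real.log (Real.log X) := by rw [Real.log_pow]; push_cast; ring
  have h3 : 0 ≤ Real.log (⌈Real.log X⌉₊ : ℝ) :=
    Real.log_nonneg (by exact_mod_cast (by omega : 1 ≤ ⌈Real.log X⌉₊))
  calc C * Real.log (⌈Real.log X⌉₊ : ℝ) ^ k ≤ C * (2 * Real.log (Real.log X)) ^ k := by gcongr
    _ = C * 2 ^ k * Real.log (Real.log X) ^ k := by rw [mul_pow]; ring

lemma sigma_le_sq {X m : ℕ} (hX : 16 ≤ X) (hm : 1 ≤ m) (hmX : m ≤ X) :
    ArithmeticFunction.sigma 1 m ≤ X ^ 2 := by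
  have h1 := sigma_le m hm
  have hX0 : (0 : ℝ) < X := by exact_mod_cast (by omega : 0 < X)
  have hm0 : (0 : ℝ) < m := by exact_mod_cast (by omega : 0 < m)
  have h2 : 1 + Real.log m ≤ X := by
    have h3 := Real.log_le_sub_one_of_pos hm0
    have h4 : (m : ℝ) ≤ X := by exact_mod_cast hmX
    linarith
  have h3 : (ArithmeticFunction.sigma 1 m : ℝ) ≤ (X : ℝ) ^ 2 := by
    calc (ArithmeticFunction.sigma 1 m : ℝ) ≤ m * (1 + Real.log m) := h1
      _ ≤ X * X := by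
        apply mul_le_mul (by exact_mod_cast hmX) h2 _ hX0.le
        have := Real.log_nonneg (show (1 : ℝ) ≤ m by exact_mod_cast hm)
        linarith
      _ = (X : ℝ) ^ 2 := by ring
  exact_mod_cast h3

lemma DT_le {X a b β : ℕ} (hX : 16 ≤ X) (ha : a ≤ X ^ 2) (hb : b ≤ X) (hβ : β ≤ X ^ 2) :
    DT a b β ≤ X ^ 14 := by
  unfold DT
  have h1 : β * (a + b - 1) - b ≤ X ^ 5 := by
    calc β * (a + b - 1) - b ≤ β * (a + b - 1) := Nat.sub_le _ _
      _ ≤ X ^ 2 * (X ^ 2 + X) := Nat.mul_le_mul hβ (by omega)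
      _ ≤ X ^ 2 * X ^ 3 := by
          apply Nat.mul_le_mul_left
          nlinarith [Nat.mul_le_mul hX (le_refl (X ^ 2)), Nat.mul_le_mul hX (le_refl X)]
      _ = X ^ 5 := by ring
  calc a * b * β * (a - 1) * (β - 1) * (β * (a + b - 1) - b)
      ≤ X ^ 2 * X * X ^ 2 * X ^ 2 * X ^ 2 * X ^ 5 :=
        Nat.mul_le_mul (Nat.mul_le_mul (Nat.mul_le_mul (Nat.mul_le_mul (Nat.mul_le_mul ha hb) hβ)
          ((Nat.sub_le _ _).trans ha)) ((Nat.sub_le _ _).trans hβ)) h1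
    _ = X ^ 14 := by ring

open scoped Classical in
/-- one cell, three forms -/
theorem cell3 (ε : ℝ) (hε : 0 < ε) : ∃ C : ℝ, 0 < C ∧ ∃ X₀ : ℕ, ∀ X : ℕ, X₀ ≤ X →
    ∀ m b : ℕ, 2 ≤ m → 2 ≤ b → (m : ℝ) * b ≤ (X : ℝ) ^ (1 - ε / 2) →
    (((Icc 1 (X / m)).filter (fun P => P ∈ TS (X / m) (zz ε X) (ArithmeticFunction.sigma 1 m) b
      (ArithmeticFunction.sigma 1 b))).card : ℝ) ≤
      C * (Real.log (Real.log X) ^ 3 / Real.log X ^ 3) * (X / (m * b)) := by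
  obtain ⟨C₁, hC₁, h1⟩ := triple
  obtain ⟨C₂, hC₂, h2⟩ := prod_le 3
  obtain ⟨X₀, h3⟩ := params ε hε
  refine ⟨C₁ * 2 * C₂ * (96 / ε) ^ 3 + 1, by positivity, X₀, fun X hX m b hm hb hmb => ?_⟩
  obtain ⟨hX16, hz, hlz, hz6, hL3, hLL, -, -⟩ := h3 X hX
  set z := zz ε X with hzdef
  have hX0 : (0 : ℝ) < X := by exact_mod_cast (by omega : 0 < X)
  have hX1 : (1 : ℝ) ≤ X := by exact_mod_cast (by omega : 1 ≤ X)
  have hL0 : 0 < Real.log X := Real.log_pos (by exact_mod_cast (by omega : 1 < X))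
  have hm0 : (0 : ℝ) < m := by exact_mod_cast (by omega : 0 < m)
  have hb0 : (0 : ℝ) < b := by exact_mod_cast (by omega : 0 < b)
  have hm1 : (1 : ℝ) ≤ m := by exact_mod_cast (by omega : 1 ≤ m)
  have hb1 : (1 : ℝ) ≤ b := by exact_mod_cast (by omega : 1 ≤ b)
  have hmbX : (m : ℝ) * b ≤ X := hmb.trans (by
    calc (X : ℝ) ^ (1 - ε / 2) ≤ (X : ℝ) ^ (1 : ℝ) :=
          Real.rpow_le_rpow_of_exponent_le hX1 (by linarith)
      _ = X := Real.rpow_one _)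
  have hmX : m ≤ X := by
    have : (m : ℝ) ≤ X := le_trans (by nlinarith) hmbX
    exact_mod_cast this
  have hbX : b ≤ X := by
    have : (b : ℝ) ≤ X := le_trans (by nlinarith) hmbX
    exact_mod_cast this
  have ha2 : 2 ≤ ArithmeticFunction.sigma 1 m := by
    have := sigma_ge hm
    omega
  have hβ2 : 2 ≤ ArithmeticFunction.sigma 1 b := by
    have := sigma_ge hb
    omega
  have h4 := h1 (X / m) z _ b _ hz ha2 (by omega) hβ2
  have h5 := h2 X _ hX16 hLL (DT_pos ha2 (by omega : 1 ≤ b) hβ2)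
    (DT_le hX16 (sigma_le_sq hX16 (by omega) hmX) hbX (sigma_le_sq hX16 (by omega) hbX))
  have h6 : (((X / m) / b + 1 : ℕ) : ℝ) ≤ 2 * (X / (m * b)) := by
    have h7 : (((X / m) / b : ℕ) : ℝ) ≤ X / (m * b) := by
      rw [Nat.div_div_eq_div_mul]
      have := @Nat.cast_div_le ℝ _ _ _ X (m * b)
      push_cast at this
      exact this
    have h8 : (1 : ℝ) ≤ X / (m * b) := by
      rw [le_div_iff₀ (by positivity)]
      linarith
    push_cast
    push_cast at h7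
    linarith
  have hlz0 : 0 < ε / 96 * Real.log X := by positivity
  have hlog3 : 1 / Real.log z ^ 3 ≤ (96 / ε) ^ 3 / Real.log X ^ 3 := by
    have h7 : (ε / 96 * Real.log X) ^ 3 ≤ Real.log z ^ 3 := pow_le_pow_left₀ hlz0.le hlz 3
    calc 1 / Real.log z ^ 3 ≤ 1 / (ε / 96 * Real.log X) ^ 3 :=
          one_div_le_one_div_of_le (by positivity) h7
      _ = (96 / ε) ^ 3 / Real.log X ^ 3 := by field_simp
  have hz6' : (z : ℝ) ^ 6 ≤ (Real.log (Real.log X) ^ 3 / Real.log X ^ 3) * (X / (m * b)) := by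
    have h7 : (X : ℝ) ^ (ε / 2) ≤ X / (m * b) := by
      rw [le_div_iff₀ (by positivity)]
      calc (X : ℝ) ^ (ε / 2) * (m * b) ≤ (X : ℝ) ^ (ε / 2) * (X : ℝ) ^ (1 - ε / 2) := by gcongr
        _ = X := by
          rw [← Real.rpow_add hX0]
          norm_num
    have h8 : (X : ℝ) ^ (ε / 8) * (X : ℝ) ^ (3 * ε / 8) = (X : ℝ) ^ (ε / 2) := by
      rw [← Real.rpow_add hX0]
      congr 1
      ring
    have h9 : (z : ℝ) ^ 6 * Real.log X ^ 3 ≤ X / (m * b) := by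
      calc (z : ℝ) ^ 6 * Real.log X ^ 3 ≤ (X : ℝ) ^ (ε / 8) * (X : ℝ) ^ (3 * ε / 8) := by gcongr
        _ = (X : ℝ) ^ (ε / 2) := h8
        _ ≤ _ := h7
    have h10 : (1 : ℝ) ≤ Real.log (Real.log X) ^ 3 := one_le_pow₀ hLL
    have hL3' : 0 < Real.log X ^ 3 := by positivity
    calc (z : ℝ) ^ 6 = (z : ℝ) ^ 6 * Real.log X ^ 3 / Real.log X ^ 3 := by field_simp
      _ ≤ (X / (m * b)) / Real.log X ^ 3 := by gcongr
      _ = (1 / Real.log X ^ 3) * (X / (m * b)) := by ring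
      _ ≤ (Real.log (Real.log X) ^ 3 / Real.log X ^ 3) * (X / (m * b)) := by gcongr
  refine h4.trans ?_
  have hLL0 : 0 < Real.log (Real.log X) := by linarith
  calc _ ≤ C₁ * (2 * (X / (m * b))) * (C₂ * Real.log (Real.log X) ^ 3) *
        ((96 / ε) ^ 3 / Real.log X ^ 3) +
        (Real.log (Real.log X) ^ 3 / Real.log X ^ 3) * (X / (m * b)) := by
        refine add_le_add ?_ hz6'
        rw [div_eq_mul_one_div]
        have hzl : 0 ≤ 1 / Real.log z ^ 3 := by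
          have : 0 < Real.log z := lt_of_lt_of_le hlz0 hlz
          positivity
        have hpr : 0 ≤ ∏ p ∈ (DT (ArithmeticFunction.sigma 1 m) b
            (ArithmeticFunction.sigma 1 b)).primeFactors, (1 + (3 : ℝ) / p) :=
          Finset.prod_nonneg fun p _ => by positivity
        gcongr
        exact_mod_cast h5
    _ = (C₁ * 2 * C₂ * (96 / ε) ^ 3 + 1) * (Real.log (Real.log X) ^ 3 / Real.log X ^ 3) *
        (X / (m * b)) := by
        field_simp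

/-- one cell, two forms -/
theorem cell2 (ε : ℝ) (hε : 0 < ε) : ∃ C : ℝ, 0 < C ∧ ∃ X₀ : ℕ, ∀ X : ℕ, X₀ ≤ X →
    ∀ m : ℕ, 2 ≤ m → (m : ℝ) ≤ (X : ℝ) ^ (1 - ε / 2) →
    (((Icc 1 (X / m)).filter (fun P => P.Prime ∧ zz ε X < P ∧
      (ArithmeticFunction.sigma 1 m * (P + 1) - 1).Prime ∧
      zz ε X < ArithmeticFunction.sigma 1 m * (P + 1) - 1)).card : ℝ) ≤
      C * (Real.log (Real.log X) ^ 2 / Real.log X ^ 2) * (X / m) := by
  obtain ⟨C₁, hC₁, h1⟩ := pair2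
  obtain ⟨C₂, hC₂, h2⟩ := prod_le 2
  obtain ⟨X₀, h3⟩ := params ε hε
  refine ⟨C₁ * 2 * C₂ * (96 / ε) ^ 2 + 1, by positivity, X₀, fun X hX m hm hmW => ?_⟩
  obtain ⟨hX16, hz, hlz, hz6, hL3, hLL, -, -⟩ := h3 X hX
  set z := zz ε X with hzdef
  have hX0 : (0 : ℝ) < X := by exact_mod_cast (by omega : 0 < X)
  have hX1 : (1 : ℝ) ≤ X := by exact_mod_cast (by omega : 1 ≤ X)
  have hL0 : 0 < Real.log X := Real.log_pos (by exact_mod_cast (by omega : 1 < X))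
  have hL1 : 1 ≤ Real.log X := by
    by_contra hc
    push Not at hc
    have h4 : Real.log (Real.log X) < 0 := Real.log_neg hL0 hc
    linarith
  have hm0 : (0 : ℝ) < m := by exact_mod_cast (by omega : 0 < m)
  have hmX' : (m : ℝ) ≤ X := hmW.trans (by
    calc (X : ℝ) ^ (1 - ε / 2) ≤ (X : ℝ) ^ (1 : ℝ) :=
          Real.rpow_le_rpow_of_exponent_le hX1 (by linarith)
      _ = X := Real.rpow_one _)
  have hmX : m ≤ X := by exact_mod_cast hmX'
  have ha2 : 2 ≤ ArithmeticFunction.sigma 1 m := by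
    have := sigma_ge hm
    omega
  have h4 := h1 (X / m) z _ hz ha2
  have haX := sigma_le_sq hX16 (by omega : 1 ≤ m) hmX
  have h5 := h2 X (ArithmeticFunction.sigma 1 m * (ArithmeticFunction.sigma 1 m - 1)) hX16 hLL
    (Nat.mul_pos (by omega) (by omega))
    (by
      calc ArithmeticFunction.sigma 1 m * (ArithmeticFunction.sigma 1 m - 1) ≤ X ^ 2 * X ^ 2 :=
            Nat.mul_le_mul haX ((Nat.sub_le _ _).trans haX)
        _ = X ^ 4 := by ring
        _ ≤ X ^ 14 := Nat.pow_le_pow_right (by omega) (by norm_num))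
  have h6 : ((X / m + 1 : ℕ) : ℝ) ≤ 2 * (X / m) := by
    have h7 : ((X / m : ℕ) : ℝ) ≤ X / m := Nat.cast_div_le
    have h8 : (1 : ℝ) ≤ X / m := by
      rw [le_div_iff₀ (by positivity)]
      linarith
    push_cast
    linarith
  have hlz0 : 0 < ε / 96 * Real.log X := by positivity
  have hlog2 : 1 / Real.log z ^ 2 ≤ (96 / ε) ^ 2 / Real.log X ^ 2 := by
    have h7 : (ε / 96 * Real.log X) ^ 2 ≤ Real.log z ^ 2 := pow_le_pow_left₀ hlz0.le hlz 2
    calc 1 / Real.log z ^ 2 ≤ 1 / (ε / 96 * Real.log X) ^ 2 :=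
          one_div_le_one_div_of_le (by positivity) h7
      _ = (96 / ε) ^ 2 / Real.log X ^ 2 := by field_simp
  have hz6' : (z : ℝ) ^ 6 ≤ (Real.log (Real.log X) ^ 2 / Real.log X ^ 2) * (X / m) := by
    have h7 : (X : ℝ) ^ (ε / 2) ≤ X / m := by
      rw [le_div_iff₀ (by positivity)]
      calc (X : ℝ) ^ (ε / 2) * m ≤ (X : ℝ) ^ (ε / 2) * (X : ℝ) ^ (1 - ε / 2) := by gcongr
        _ = X := by
          rw [← Real.rpow_add hX0]
          norm_num
    have h8 : (X : ℝ) ^ (ε / 8) * (X : ℝ) ^ (3 * ε / 8) = (X : ℝ) ^ (ε / 2) := by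
      rw [← Real.rpow_add hX0]
      congr 1
      ring
    have h9 : (z : ℝ) ^ 6 * Real.log X ^ 2 ≤ X / m := by
      have h11 : Real.log X ^ 2 ≤ Real.log X ^ 3 := pow_le_pow_right₀ hL1 (by norm_num)
      calc (z : ℝ) ^ 6 * Real.log X ^ 2 ≤ (X : ℝ) ^ (ε / 8) * Real.log X ^ 3 :=
            mul_le_mul hz6 h11 (by positivity) (by positivity)
        _ ≤ (X : ℝ) ^ (ε / 8) * (X : ℝ) ^ (3 * ε / 8) := by gcongr
        _ = (X : ℝ) ^ (ε / 2) := h8
        _ ≤ _ := h7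
    have h10 : (1 : ℝ) ≤ Real.log (Real.log X) ^ 2 := one_le_pow₀ hLL
    calc (z : ℝ) ^ 6 = (z : ℝ) ^ 6 * Real.log X ^ 2 / Real.log X ^ 2 := by field_simp
      _ ≤ (X / m) / Real.log X ^ 2 := by gcongr
      _ = (1 / Real.log X ^ 2) * (X / m) := by ring
      _ ≤ (Real.log (Real.log X) ^ 2 / Real.log X ^ 2) * (X / m) := by gcongr
  refine h4.trans ?_
  have hLL0 : 0 < Real.log (Real.log X) := by linarith
  calc _ ≤ C₁ * (2 * (X / m)) * (C₂ * Real.log (Real.log X) ^ 2) *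
        ((96 / ε) ^ 2 / Real.log X ^ 2) +
        (Real.log (Real.log X) ^ 2 / Real.log X ^ 2) * (X / m) := by
        refine add_le_add ?_ hz6'
        rw [div_eq_mul_one_div]
        have hzl : 0 ≤ 1 / Real.log z ^ 2 := by positivity
        have hpr : 0 ≤ ∏ p ∈ (ArithmeticFunction.sigma 1 m *
            (ArithmeticFunction.sigma 1 m - 1)).primeFactors, (1 + (2 : ℝ) / p) :=
          Finset.prod_nonneg fun p _ => by positivity
        gcongr
        exact_mod_cast h5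
    _ = (C₁ * 2 * C₂ * (96 / ε) ^ 2 + 1) * (Real.log (Real.log X) ^ 2 / Real.log X ^ 2) *
        (X / m) := by
        field_simp

end Pool.Agent.SGJ
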