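import Pool.Agent.SGJ.Smooth
import Pool.Agent.SGJ.Cells

set_option autoImplicit false

/-!
# Three composites: the condition holds for a positive proportion
-/

namespace Pool.Agent.SGJ

open Finset Pool.Agent.SGI Pool.Agent.HP

/-- eventually `log Z ≤ c Z^(1/4)` and `√Z log Z` is small -/
lemma log_small (c : ℝ) (hc : 0 < c) (s : ℝ) (hs : 0 < s) : ∃ Z₀ : ℕ, ∀ Z : ℕ, Z₀ ≤ Z →
    Real.log Z ≤ c * (Z : ℝ) ^ s := by
  have h := (isLittleO_log_rpow_atTop hs).bound hc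
  obtain ⟨A, hA⟩ := Filter.eventually_atTop.1 h
  refine ⟨⌈A⌉₊ + 1, fun X hX => ?_⟩
  have h1 : A ≤ (X : ℝ) := (Nat.le_ceil A).trans (by exact_mod_cast (by omega : ⌈A⌉₊ ≤ X))
  have h2 := hA X h1
  have hX1 : (1 : ℝ) ≤ X := by exact_mod_cast (by omega : 1 ≤ X)
  have h3 : 0 ≤ Real.log X := Real.log_nonneg hX1
  rw [Real.norm_of_nonneg h3, Real.norm_of_nonneg (by positivity)] at h2
  exact h2

/-- Chebyshev: many primes in `(Z/4, Z]` -/
lemma pi_ge : ∃ Z₀ : ℕ, ∀ Z : ℕ, Z₀ ≤ Z →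
    (1 / 8 : ℝ) * (Z / Real.log Z) ≤
      (((Icc 1 Z).filter (fun P => P.Prime ∧ Z / 4 < P)).card : ℝ) := by
  obtain ⟨Z₁, h1⟩ := log_small (1 / 64) (by norm_num) (1 / 2) (by norm_num)
  refine ⟨Z₁ + 16, fun Z hZ => ?_⟩
  have h1 := h1 Z (by omega)
  rw [← Real.sqrt_eq_rpow] at h1
  have hZ0 : (0 : ℝ) < Z := by exact_mod_cast (by omega : 0 < Z)
  have hZ16 : (16 : ℝ) ≤ Z := by exact_mod_cast (by omega : 16 ≤ Z)
  have hlog : 0 < Real.log Z := Real.log_pos (by linarith)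
  have h2 := Chebyshev.theta_ge Z
  have h3 := Chebyshev.theta_le_log4_mul_x (show (0 : ℝ) ≤ ((Z / 4 : ℕ) : ℝ) by positivity)
  have h4 : ((Z / 4 : ℕ) : ℝ) ≤ Z / 4 := by
    have := @Nat.cast_div_le ℝ _ _ _ Z 4
    exact_mod_cast this
  have h5 : Real.log 4 = 2 * Real.log 2 := by
    rw [show (4 : ℝ) = 2 ^ 2 by norm_num, Real.log_pow]
    push_cast
    ring
  have h6 : Chebyshev.theta Z - Chebyshev.theta ((Z / 4 : ℕ) : ℝ) =
      ∑ p ∈ (Icc 1 Z).filter (fun P => P.Prime ∧ Z / 4 < P), Real.log p := by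
    rw [Chebyshev.theta_eq_sum_Icc, Chebyshev.theta_eq_sum_Icc, Nat.floor_natCast,
      Nat.floor_natCast]
    have e1 : (Icc 0 Z).filter Nat.Prime = (Icc 0 (Z / 4)).filter Nat.Prime ∪
        (Icc 1 Z).filter (fun P => P.Prime ∧ Z / 4 < P) := by
      ext p
      simp only [mem_filter, mem_Icc, mem_union]
      constructor
      · rintro ⟨⟨-, h⟩, hp⟩
        rcases Nat.lt_or_ge (Z / 4) p with h' | h'
        · exact Or.inr ⟨⟨hp.one_le, h⟩, hp, h'⟩
        · exact Or.inl ⟨⟨Nat.zero_le _, h'⟩, hp⟩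
      · rintro (⟨⟨-, h⟩, hp⟩ | ⟨⟨-, h⟩, hp, -⟩)
        · exact ⟨⟨Nat.zero_le _, h.trans (Nat.div_le_self _ _)⟩, hp⟩
        · exact ⟨⟨Nat.zero_le _, h⟩, hp⟩
    rw [e1, sum_union]
    · ring
    · rw [Finset.disjoint_left]
      intro p hp hp'
      rw [mem_filter, mem_Icc] at hp hp'
      omega
  have h7 : ∑ p ∈ (Icc 1 Z).filter (fun P => P.Prime ∧ Z / 4 < P), Real.log p ≤
      (((Icc 1 Z).filter (fun P => P.Prime ∧ Z / 4 < P)).card : ℝ) * Real.log Z := by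
    rw [← nsmul_eq_mul]
    apply Finset.sum_le_card_nsmul
    intro p hp
    rw [mem_filter, mem_Icc] at hp
    apply Real.log_le_log
    · exact_mod_cast hp.1.1
    · exact_mod_cast hp.1.2
  have hl2 := Real.log_two_gt_d9
  have hsq := Real.mul_self_sqrt hZ0.le
  have hsq4 : 4 ≤ Real.sqrt Z := by
    rw [show (4 : ℝ) = Real.sqrt 16 by
      rw [show (16 : ℝ) = 4 ^ 2 by norm_num, Real.sqrt_sq (by norm_num)]]
    exact Real.sqrt_le_sqrt hZ16
  have h8 : Real.log (Z + 1) ≤ 2 * Real.log Z := by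
    rw [← Real.log_rpow hZ0]
    apply Real.log_le_log (by positivity)
    rw [Real.rpow_two]
    nlinarith
  have h9 : Real.sqrt Z * Real.log Z ≤ Z / 64 := by
    calc Real.sqrt Z * Real.log Z ≤ Real.sqrt Z * (1 / 64 * Real.sqrt Z) := by gcongr
      _ = Z / 64 := by rw [show Real.sqrt Z * (1 / 64 * Real.sqrt Z) =
          (Real.sqrt Z * Real.sqrt Z) / 64 by ring, hsq]
  have h10 : Real.log Z ≤ Z / 256 := by nlinarith
  have h11 : Chebyshev.theta ((Z / 4 : ℕ) : ℝ) ≤ Z * Real.log 2 / 2 := by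
    refine h3.trans ?_
    rw [h5]
    have : 0 < Real.log 2 := by linarith
    nlinarith
  have h12 : (Z : ℝ) / 8 ≤
      (((Icc 1 Z).filter (fun P => P.Prime ∧ Z / 4 < P)).card : ℝ) * Real.log Z := by
    have e1 : 2 * Real.sqrt Z * Real.log Z ≤ Z / 32 := by linarith
    have e2 : (Z : ℝ) * (0.69) ≤ Z * Real.log 2 := by
      apply mul_le_mul_of_nonneg_left (by linarith) hZ0.le
    linarith
  rw [one_div_mul_eq_div, div_div, div_le_iff₀ (by positivity)]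
  rw [div_le_iff₀ (by norm_num)] at h12
  linarith

/-- if all prime factors are at most `y`, the `y`-part is everything -/
lemma sp_self {y N : ℕ} (hN : N ≠ 0) (h : gpf N ≤ y) : sp y N = N := by
  unfold sp
  rw [List.filter_eq_self.2]
  · exact Nat.prod_primeFactorsList hN
  · intro p hp
    have hp' := (Nat.mem_primeFactorsList hN).1 hp
    simpa using (le_gpf hN hp'.1 hp'.2).trans h

open scoped Classical in
/-- the primes `P` for a given `m` -/
lemma good_m : ∃ δ : ℝ, 0 < δ ∧ δ ≤ 1 / 32 ∧ ∃ X₀ : ℕ, ∀ X : ℕ, X₀ ≤ X → ∀ m : ℕ, 1 ≤ m →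
    (m : ℝ) ≤ (X : ℝ) ^ δ →
    (1 / 32 : ℝ) * (X / (m * Real.log X)) ≤ (((Icc 1 (X / m)).filter (fun P => P.Prime ∧ m < P ∧
      (X : ℝ) ^ (1 + δ / 2) ≤ (P : ℝ) * gpf (ff (m * P)))).card : ℝ) := by
  obtain ⟨C, hC, hsm⟩ := smpa
  obtain ⟨Z₁, hpi⟩ := pi_ge
  set δ : ℝ := min (1 / 32) (1 / (128 * C)) with hδ
  have hδ0 : 0 < δ := by rw [hδ]; positivity
  have hδ1 : δ ≤ 1 / 32 := min_le_left _ _
  have hδ2 : 128 * C * δ ≤ 1 := by
    calc 128 * C * δ ≤ 128 * C * (1 / (128 * C)) := by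
          gcongr
          exact min_le_right _ _
      _ = 1 := by field_simp
  obtain ⟨Z₂, hZ₂⟩ := log_small (1 / (64 * C)) (by positivity) (1 / 4) (by norm_num)
  refine ⟨δ, hδ0, hδ1, (Z₁ + Z₂ + 16) ^ 2 + ⌈Real.exp (128 * C)⌉₊ + ⌈(4 : ℝ) ^ (2 / δ)⌉₊ + 256,
    fun X hX m hm hmX => ?_⟩
  have hX0 : (0 : ℝ) < X := by exact_mod_cast (by omega : 0 < X)
  have hX1 : (1 : ℝ) ≤ X := by exact_mod_cast (by omega : 1 ≤ X)
  have hX256 : (256 : ℝ) ≤ X := by exact_mod_cast (by omega : 256 ≤ X)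
  have hm0 : (0 : ℝ) < m := by exact_mod_cast (by omega : 0 < m)
  have hm1 : (1 : ℝ) ≤ m := by exact_mod_cast hm
  obtain ⟨L, hL⟩ : ∃ L, L = Real.log X := ⟨_, rfl⟩
  have hL0 : 0 < L := hL ▸ Real.log_pos (by linarith)
  have hLC : 128 * C ≤ L := by
    rw [hL, Real.le_log_iff_exp_le hX0]
    exact (Nat.le_ceil _).trans (by exact_mod_cast (by omega : ⌈Real.exp (128 * C)⌉₊ ≤ X))
  have h4X : (4 : ℝ) ≤ (X : ℝ) ^ (δ / 2) := by
    have h3 : (4 : ℝ) ^ (2 / δ) ≤ X :=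
      (Nat.le_ceil _).trans (by exact_mod_cast (by omega : ⌈(4 : ℝ) ^ (2 / δ)⌉₊ ≤ X))
    have h4 := Real.rpow_le_rpow (by positivity) h3 (show 0 ≤ δ / 2 by positivity)
    rw [← Real.rpow_mul (by norm_num)] at h4
    have h5 : 2 / δ * (δ / 2) = 1 := by field_simp
    rw [h5, Real.rpow_one] at h4
    exact h4
  have hXsq : (X : ℝ) ^ (1 / 2 : ℝ) * (X : ℝ) ^ (1 / 2 : ℝ) = X := by
    rw [← Real.rpow_add hX0]
    norm_num
  have hX16 : (16 : ℝ) ≤ (X : ℝ) ^ (1 / 2 : ℝ) := by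
    rw [← Real.sqrt_eq_rpow, show (16 : ℝ) = Real.sqrt 256 by
      rw [show (256 : ℝ) = 16 ^ 2 by norm_num, Real.sqrt_sq (by norm_num)]]
    exact Real.sqrt_le_sqrt hX256
  have hmX32 : (m : ℝ) ≤ (X : ℝ) ^ (1 / 32 : ℝ) :=
    hmX.trans (Real.rpow_le_rpow_of_exponent_le hX1 hδ1)
  have hX14 : (X : ℝ) ^ (1 / 4 : ℝ) * (X : ℝ) ^ (1 / 4 : ℝ) = (X : ℝ) ^ (1 / 2 : ℝ) := by
    rw [← Real.rpow_add hX0]
    norm_num
  have hX14' : (4 : ℝ) ≤ (X : ℝ) ^ (1 / 4 : ℝ) := by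
    by_contra hc
    push Not at hc
    nlinarith [Real.rpow_pos_of_pos hX0 (1 / 4 : ℝ)]
  have hmX14 : (m : ℝ) ≤ (X : ℝ) ^ (1 / 4 : ℝ) :=
    hmX32.trans (Real.rpow_le_rpow_of_exponent_le hX1 (by norm_num))
  have hmXX : 4 * (m : ℝ) ≤ (X : ℝ) ^ (1 / 2 : ℝ) := by
    rw [← hX14]
    exact mul_le_mul hX14' hmX14 hm0.le (by positivity)
  obtain ⟨Z, hZ⟩ : ∃ Z, Z = X / m := ⟨_, rfl⟩
  -- `Z ≥ 2 X^(1/2)`
  have hZlow : (X : ℝ) / (2 * m) ≤ Z := by
    have h1 : X < m * (Z + 1) := by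
      rw [hZ]
      exact Nat.lt_mul_div_succ X (by omega)
    have h2 : (X : ℝ) < m * (Z + 1) := by exact_mod_cast h1
    have h3 : 2 * (m : ℝ) ≤ X := by nlinarith
    rw [div_le_iff₀ (by positivity)]
    nlinarith
  have hZX : (Z : ℝ) ≤ X / m := by
    rw [hZ]
    exact Nat.cast_div_le
  have hZhalf : (X : ℝ) ^ (1 / 2 : ℝ) ≤ Z := by
    refine le_trans ?_ hZlow
    rw [le_div_iff₀ (by positivity)]
    calc (X : ℝ) ^ (1 / 2 : ℝ) * (2 * m) ≤ (X : ℝ) ^ (1 / 2 : ℝ) * (X : ℝ) ^ (1 / 2 : ℝ) := by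
          gcongr
          linarith
      _ = X := hXsq
  have hZnat : Z₁ + Z₂ + 16 ≤ Z := by
    have h1 : (((Z₁ + Z₂ + 16 : ℕ) : ℝ)) ≤ Z := by
      refine le_trans ?_ hZhalf
      rw [← Real.sqrt_eq_rpow]
      apply Real.le_sqrt_of_sq_le
      exact_mod_cast (by omega : (Z₁ + Z₂ + 16) ^ 2 ≤ X)
    exact_mod_cast h1
  have hZ0 : (0 : ℝ) < Z := by exact_mod_cast (by omega : 0 < Z)
  have hZ1 : (1 : ℝ) < Z := by exact_mod_cast (by omega : 1 < Z)
  have hZleX : (Z : ℝ) ≤ X := hZX.trans (div_le_self hX0.le hm1)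
  have hlZ0 : 0 < Real.log Z := Real.log_pos hZ1
  have hlZ : Real.log Z ≤ L := hL ▸ Real.log_le_log hZ0 hZleX
  have hpi := hpi Z (by omega)
  have hZ₂ := hZ₂ Z (by omega)
  -- the smooth ones
  set y : ℕ := ⌊(X : ℝ) ^ (2 * δ)⌋₊ with hy
  have hXd1 : (1 : ℝ) ≤ (X : ℝ) ^ (2 * δ) := Real.one_le_rpow hX1 (by positivity)
  have hy1 : 1 ≤ y := by
    rw [hy, Nat.one_le_floor_iff]
    exact hXd1
  have hyX : (y : ℝ) ≤ (X : ℝ) ^ (2 * δ) := Nat.floor_le (by positivity)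
  have hly : Real.log y ≤ 2 * δ * L := by
    rw [hL, ← Real.log_rpow hX0]
    exact Real.log_le_log (by exact_mod_cast hy1) hyX
  have ha1 := sigma_pos hm
  set a := ArithmeticFunction.sigma 1 m with ha
  have hcop : Nat.Coprime a (a - 1) := by
    rw [Nat.coprime_comm]
    exact (Nat.coprime_self_sub_right ha1).2 (Nat.coprime_one_right _) |>.symm
  have hsm := hsm Z y a (a - 1) (by omega) hy1 hcop (L / 2) (by positivity)
  set Bad := (Icc 1 Z).filter (fun q => q.Prime ∧ L / 2 ≤ Real.log (sp y (a * q + (a - 1))))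
    with hBad
  have hbad : (Bad.card : ℝ) ≤ 1 / 16 * (Z / Real.log Z) := by
    have h1 : (Bad.card : ℝ) * (L / 2) ≤
        (1 / 16 * (Z / Real.log Z)) * (L / 2) := by
      refine hsm.trans ?_
      have e1 : C * (Z / Real.log Z) * (1 + Real.log y) ≤
          (C * (Z / Real.log Z)) * (1 / (128 * C) * L + 2 * δ * L) := by
        apply mul_le_mul_of_nonneg_left _ (by positivity)
        have : 1 ≤ 1 / (128 * C) * L := by
          rw [one_div_mul_eq_div, le_div_iff₀ (by positivity), one_mul]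
          exact hLC
        linarith
      have e2 : (y : ℝ) ^ 2 * Real.sqrt Z ≤ (Z : ℝ) ^ (3 / 4 : ℝ) := by
        have h2 : (y : ℝ) ^ 2 ≤ (Z : ℝ) ^ (1 / 4 : ℝ) := by
          calc (y : ℝ) ^ 2 ≤ ((X : ℝ) ^ (2 * δ)) ^ 2 := by gcongr
            _ = (X : ℝ) ^ (4 * δ) := by
                rw [← Real.rpow_natCast, ← Real.rpow_mul hX0.le]
                congr 1
                push_cast
                ring
            _ ≤ (X : ℝ) ^ (1 / 2 * (1 / 4) : ℝ) :=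
                Real.rpow_le_rpow_of_exponent_le hX1 (by linarith)
            _ = ((X : ℝ) ^ (1 / 2 : ℝ)) ^ (1 / 4 : ℝ) := by rw [Real.rpow_mul hX0.le]
            _ ≤ (Z : ℝ) ^ (1 / 4 : ℝ) := by gcongr
        calc (y : ℝ) ^ 2 * Real.sqrt Z ≤ (Z : ℝ) ^ (1 / 4 : ℝ) * (Z : ℝ) ^ (1 / 2 : ℝ) := by
              rw [Real.sqrt_eq_rpow]
              gcongr
          _ = (Z : ℝ) ^ (3 / 4 : ℝ) := by
              rw [← Real.rpow_add hZ0]
              norm_num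
      have e3 : (Z : ℝ) ^ (3 / 4 : ℝ) ≤ 1 / (64 * C) * (Z / Real.log Z) := by
        have h2 : (Z : ℝ) ^ (3 / 4 : ℝ) * Real.log Z ≤ 1 / (64 * C) * Z := by
          calc (Z : ℝ) ^ (3 / 4 : ℝ) * Real.log Z ≤
                (Z : ℝ) ^ (3 / 4 : ℝ) * (1 / (64 * C) * (Z : ℝ) ^ (1 / 4 : ℝ)) := by gcongr
            _ = 1 / (64 * C) * ((Z : ℝ) ^ (3 / 4 : ℝ) * (Z : ℝ) ^ (1 / 4 : ℝ)) := by ring
            _ = 1 / (64 * C) * Z := by
                rw [← Real.rpow_add hZ0]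
                norm_num
        calc (Z : ℝ) ^ (3 / 4 : ℝ) = (Z : ℝ) ^ (3 / 4 : ℝ) * Real.log Z / Real.log Z := by
              field_simp
          _ ≤ (1 / (64 * C) * Z) / Real.log Z := by gcongr
          _ = _ := by ring
      have e4 : C * (L / 2) * (y : ℝ) ^ 2 * Real.sqrt Z ≤
          C * (L / 2) * (1 / (64 * C) * (Z / Real.log Z)) := by
        rw [mul_assoc]
        exact mul_le_mul_of_nonneg_left (e2.trans e3) (by positivity)
      have hW0 : 0 < (Z : ℝ) / Real.log Z := by positivity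
      have e5 : (C * (Z / Real.log Z)) * (1 / (128 * C) * L + 2 * δ * L) +
          C * (L / 2) * (1 / (64 * C) * (Z / Real.log Z)) =
          (Z / Real.log Z) * L * (1 / 64 + (64 * C * δ) / 32) := by
        field_simp
        ring
      calc _ ≤ (C * (Z / Real.log Z)) * (1 / (128 * C) * L + 2 * δ * L) +
          C * (L / 2) * (1 / (64 * C) * (Z / Real.log Z)) := add_le_add e1 e4
        _ = (Z / Real.log Z) * L * (1 / 64 + (64 * C * δ) / 32) := e5
        _ ≤ (Z / Real.log Z) * L * (1 / 32) := by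
            gcongr
            linarith
        _ = _ := by ring
    exact le_of_mul_le_mul_right h1 (by positivity)
  -- good ones
  have hsub : (Icc 1 Z).filter (fun P => P.Prime ∧ Z / 4 < P) ⊆
      (Icc 1 Z).filter (fun P => P.Prime ∧ m < P ∧
      (X : ℝ) ^ (1 + δ / 2) ≤ (P : ℝ) * gpf (ff (m * P))) ∪ Bad := by
    intro P hP
    rw [mem_filter, mem_Icc] at hP
    obtain ⟨⟨hP1, hPZ⟩, hPp, hP4⟩ := hP
    have h1 : X < 4 * m * P := by
      have h2 : X < m * (Z + 1) := by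
        rw [hZ]
        exact Nat.lt_mul_div_succ X (by omega)
      have h3 : Z + 1 ≤ 4 * P := by omega
      calc X < m * (Z + 1) := h2
        _ ≤ m * (4 * P) := Nat.mul_le_mul_left _ h3
        _ = 4 * m * P := by ring
    have h1r : (X : ℝ) < 4 * m * P := by exact_mod_cast h1
    have hP0 : (0 : ℝ) < P := by exact_mod_cast hP1
    have hmP : m < P := by
      have h2 : (m : ℝ) < P := by
        by_contra hc
        push Not at hc
        have h3 : (X : ℝ) < (4 * m) * (4 * m) := by nlinarith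
        have h4 : (4 * (m : ℝ)) * (4 * m) ≤ X := by
          rw [← hXsq]
          exact mul_le_mul hmXX hmXX (by positivity) (by positivity)
        linarith
      exact_mod_cast h2
    have hPm : ¬ P ∣ m := fun h => by
      have := Nat.le_of_dvd (by omega) h
      omega
    have hn2 : 2 ≤ m * P := le_trans hPp.two_le (Nat.le_mul_of_pos_left _ (by omega))
    have hN := ff_succ (show 1 ≤ m * P by omega)
    rw [sigma_mul hPp hPm, ← ha] at hN
    have hN' : a * P + (a - 1) = ff (m * P) := by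
      have : a * (P + 1) = a * P + a := by ring
      omega
    have hNn := le_ff hn2
    rw [mem_union, mem_filter, mem_filter, mem_Icc]
    by_cases hQ : gpf (ff (m * P)) ≤ y
    · right
      refine ⟨⟨hP1, hPZ⟩, hPp, ?_⟩
      rw [hN', sp_self (by omega) hQ]
      have h2 : (X : ℝ) ^ (1 / 2 : ℝ) ≤ ff (m * P) := by
        have h3 : ((m * P : ℕ) : ℝ) ≤ ff (m * P) := by exact_mod_cast hNn
        push_cast at h3
        nlinarith
      calc L / 2 = Real.log ((X : ℝ) ^ (1 / 2 : ℝ)) := by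
            rw [Real.log_rpow hX0, hL]
            ring
        _ ≤ Real.log (ff (m * P)) := Real.log_le_log (by positivity) h2
    · left
      refine ⟨⟨hP1, hPZ⟩, hPp, hmP, ?_⟩
      push Not at hQ
      have h2 : (X : ℝ) ^ (2 * δ) ≤ gpf (ff (m * P)) := by
        have h3 : (X : ℝ) ^ (2 * δ) < y + 1 := Nat.lt_floor_add_one _
        have h4 : ((y + 1 : ℕ) : ℝ) ≤ gpf (ff (m * P)) := by exact_mod_cast hQ
        push_cast at h4
        linarith
      -- `4 m P Q ≥ X^(1+2δ)`, `m ≤ X^δ`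
      have h5 : (X : ℝ) * (X : ℝ) ^ (2 * δ) ≤ (4 * m * P) * gpf (ff (m * P)) :=
        mul_le_mul h1r.le h2 (by positivity) (by positivity)
      have h6 : (X : ℝ) ^ (2 * δ) = (X : ℝ) ^ δ * ((X : ℝ) ^ (δ / 2) * (X : ℝ) ^ (δ / 2)) := by
        rw [← Real.rpow_add hX0, ← Real.rpow_add hX0]
        congr 1
        ring
      have h7 : (X : ℝ) ^ (1 + δ / 2) = X * (X : ℝ) ^ (δ / 2) := by
        rw [Real.rpow_add hX0, Real.rpow_one]
      have hXδ : 0 < (X : ℝ) ^ δ := by positivity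
      have h8 : (X : ℝ) ^ (1 + δ / 2) * (4 * (X : ℝ) ^ δ) ≤
          ((P : ℝ) * gpf (ff (m * P))) * (4 * (X : ℝ) ^ δ) := by
        calc (X : ℝ) ^ (1 + δ / 2) * (4 * (X : ℝ) ^ δ)
            ≤ (X * (X : ℝ) ^ (δ / 2)) * ((X : ℝ) ^ (δ / 2) * (X : ℝ) ^ δ) := by
              rw [h7]
              gcongr
          _ = (X : ℝ) * (X : ℝ) ^ (2 * δ) := by rw [h6]; ring
          _ ≤ (4 * m * P) * gpf (ff (m * P)) := h5
          _ = ((P : ℝ) * gpf (ff (m * P))) * (4 * m) := by ring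
          _ ≤ ((P : ℝ) * gpf (ff (m * P))) * (4 * (X : ℝ) ^ δ) := by gcongr
      exact le_of_mul_le_mul_right h8 (by positivity)
  have hc1 := (card_le_card hsub).trans (card_union_le _ _)
  have hc2 : (((Icc 1 Z).filter (fun P => P.Prime ∧ Z / 4 < P)).card : ℝ) ≤
      (((Icc 1 Z).filter (fun P => P.Prime ∧ m < P ∧
      (X : ℝ) ^ (1 + δ / 2) ≤ (P : ℝ) * gpf (ff (m * P)))).card : ℝ) + Bad.card := by
    exact_mod_cast hc1
  rw [← hZ]
  have h9 : (1 / 32 : ℝ) * (X / (m * Real.log X)) ≤ 1 / 16 * (Z / Real.log Z) := by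
    rw [← hL]
    calc (1 / 32 : ℝ) * (X / (m * L)) = 1 / 16 * ((X / (2 * m)) / L) := by field_simp; ring
      _ ≤ 1 / 16 * (Z / L) := by gcongr
      _ ≤ 1 / 16 * (Z / Real.log Z) := by gcongr
  linarith

open scoped Classical in
/-- positive proportion -/
theorem lower : ∃ ε c : ℝ, 0 < ε ∧ 0 < c ∧ ∃ X₀ : ℕ, ∀ X : ℕ, X₀ ≤ X →
    c * X ≤ (((Icc 2 X).filter (fun n => (X : ℝ) ^ (1 + ε) ≤
      (gpf n : ℝ) * gpf (ff n))).card : ℝ) := by
  obtain ⟨δ, hδ, -, X₀, h⟩ := good_m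
  refine ⟨δ / 2, δ / 32, by positivity, by positivity, X₀ + 3, fun X hX => ?_⟩
  have hX0 : (0 : ℝ) < X := by exact_mod_cast (by omega : 0 < X)
  have hX1 : (1 : ℝ) ≤ X := by exact_mod_cast (by omega : 1 ≤ X)
  have hL0 : 0 < Real.log X := Real.log_pos (by exact_mod_cast (by omega : 1 < X))
  set M : ℕ := ⌊(X : ℝ) ^ δ⌋₊ with hM
  set G : ℕ → Finset ℕ := fun m => (Icc 1 (X / m)).filter (fun P => P.Prime ∧ m < P ∧
      (X : ℝ) ^ (1 + δ / 2) ≤ (P : ℝ) * gpf (ff (m * P))) with hG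
  have h1 : ((Icc 1 M).sigma G).card ≤ ((Icc 2 X).filter (fun n => (X : ℝ) ^ (1 + δ / 2) ≤
      (gpf n : ℝ) * gpf (ff n))).card := by
    apply card_le_card_of_injOn (fun p => p.1 * p.2)
    · rintro ⟨m, P⟩ hp
      rw [mem_coe, mem_sigma, mem_Icc] at hp
      obtain ⟨⟨hm1, hm2⟩, hP⟩ := hp
      simp only [hG, mem_filter, mem_Icc] at hP
      obtain ⟨⟨hP1, hP2⟩, hPp, hmP, hc⟩ := hP
      rw [mem_coe, mem_filter, mem_Icc]
      refine ⟨⟨?_, ?_⟩, ?_⟩
      · exact le_trans hPp.two_le (Nat.le_mul_of_pos_left _ (by omega))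
      · exact (Nat.mul_le_mul_left m hP2).trans (Nat.mul_div_le X m)
      · simp only
        rw [gpf_mul (by omega) hPp hmP]
        exact hc
    · rintro ⟨m, P⟩ hp ⟨m', P'⟩ hp' he
      rw [mem_coe, mem_sigma, mem_Icc] at hp hp'
      obtain ⟨⟨hm1, hm2⟩, hP⟩ := hp
      obtain ⟨⟨hm1', hm2'⟩, hP'⟩ := hp'
      simp only [hG, mem_filter, mem_Icc] at hP hP' he
      obtain ⟨⟨hP1, hP2⟩, hPp, hmP, hc⟩ := hP
      obtain ⟨⟨hP1', hP2'⟩, hPp', hmP', hc'⟩ := hP'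
      have e1 := gpf_mul (by omega) hPp hmP
      have e2 := gpf_mul (by omega) hPp' hmP'
      rw [he, e2] at e1
      subst e1
      have e3 : m = m' := Nat.eq_of_mul_eq_mul_right hPp.pos he
      subst e3
      rfl
  rw [card_sigma] at h1
  have h2 : δ * Real.log X ≤ ∑ m ∈ Icc 1 M, (1 : ℝ) / m := by
    have h3 := log_add_one_le_harmonic M
    rw [harmonic_eq_sum_Icc] at h3
    push_cast at h3
    have h4 : δ * Real.log X ≤ Real.log (M + 1) := by
      rw [← Real.log_rpow hX0]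
      apply Real.log_le_log (by positivity)
      exact (Nat.lt_floor_add_one _).le
    refine h4.trans (h3.trans (le_of_eq ?_))
    exact Finset.sum_congr rfl fun d _ => (one_div _).symm
  have h3 : ∑ m ∈ Icc 1 M, (1 / 32 : ℝ) * (X / Real.log X) * ((1 : ℝ) / m) ≤
      ∑ m ∈ Icc 1 M, ((G m).card : ℝ) := by
    refine Finset.sum_le_sum fun m hm => ?_
    rw [mem_Icc] at hm
    have h4 := h X (by omega) m hm.1 (by
      calc (m : ℝ) ≤ M := by exact_mod_cast hm.2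
        _ ≤ (X : ℝ) ^ δ := Nat.floor_le (by positivity))
    refine le_trans (le_of_eq ?_) h4
    have : (m : ℝ) ≠ 0 := by exact_mod_cast (by omega : m ≠ 0)
    field_simp
  rw [← Finset.mul_sum] at h3
  calc δ / 32 * X = (1 / 32 : ℝ) * (X / Real.log X) * (δ * Real.log X) := by field_simp
    _ ≤ (1 / 32 : ℝ) * (X / Real.log X) * ∑ m ∈ Icc 1 M, (1 : ℝ) / m := by gcongr
    _ ≤ ∑ m ∈ Icc 1 M, ((G m).card : ℝ) := h3
    _ ≤ _ := by exact_mod_cast h1

end Pool.Agent.SGJ
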