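import Pool.Agent.SGJ.Count
import Pool.Agent.SGJ.Lower

set_option autoImplicit false

/-!
# Three composites: final form
-/

namespace Pool.Agent.SGJ

open Finset Pool.Agent.SGI

open scoped Classical in
theorem main_n (ε : ℝ) (hε : 0 < ε) : ∃ C : ℝ, 0 < C ∧ ∃ X₀ : ℕ, ∀ X : ℕ, X₀ ≤ X →
    (((Icc 2 X).filter (fun n : ℕ => (n : ℝ) ^ (1 + ε) ≤ (gpf n : ℝ) * gpf (ff n) ∧
      (n.Prime ∨ (ff n).Prime ∨ (ff (ff n)).Prime))).card : ℝ) ≤
      C * X * Real.log (Real.log X) ^ 3 / Real.log X := by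
  obtain ⟨C, hC, X₁, h1⟩ := main_X (ε / 2) (by positivity)
  obtain ⟨X₂, h2⟩ := log_pow_le (⌈1 + ε⌉₊) (ε / 2) (by positivity)
  obtain ⟨X₃, h3⟩ := params ε hε
  refine ⟨C + 1, by positivity, X₁ + X₂ + X₃, fun X hX => ?_⟩
  have h1 := h1 X (by omega)
  have h2 := h2 X (by omega)
  obtain ⟨hX16, -, -, -, -, hLL, -, -⟩ := h3 X (by omega)
  have hX0 : (0 : ℝ) < X := by exact_mod_cast (by omega : 0 < X)
  have hX1 : (1 : ℝ) ≤ X := by exact_mod_cast (by omega : 1 ≤ X)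
  have hL0 : 0 < Real.log X := Real.log_pos (by exact_mod_cast (by omega : 1 < X))
  have hL1 : 1 ≤ Real.log X := by
    by_contra hc
    push Not at hc
    have h4 : Real.log (Real.log X) < 0 := Real.log_neg hL0 hc
    linarith
  have hsub : (Icc 2 X).filter (fun n : ℕ => (n : ℝ) ^ (1 + ε) ≤ (gpf n : ℝ) * gpf (ff n) ∧
      (n.Prime ∨ (ff n).Prime ∨ (ff (ff n)).Prime)) ⊆
      Icc 1 ⌊(X : ℝ) / Real.log X⌋₊ ∪
      (Icc 2 X).filter (fun n : ℕ => (X : ℝ) ^ (1 + ε / 2) ≤ (gpf n : ℝ) * gpf (ff n) ∧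
      (n.Prime ∨ (ff n).Prime ∨ (ff (ff n)).Prime)) := by
    intro n hn
    rw [mem_filter, mem_Icc] at hn
    obtain ⟨⟨hn2, hnX⟩, hn3, hn4⟩ := hn
    rw [mem_union]
    by_cases hc : (n : ℝ) ≤ X / Real.log X
    · left
      rw [mem_Icc]
      exact ⟨by omega, Nat.le_floor hc⟩
    · right
      push Not at hc
      rw [mem_filter, mem_Icc]
      refine ⟨⟨hn2, hnX⟩, le_trans ?_ hn3, hn4⟩
      have h5 : Real.log X ^ (1 + ε) ≤ (X : ℝ) ^ (ε / 2) := by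
        refine le_trans ?_ h2
        rw [← Real.rpow_natCast]
        exact Real.rpow_le_rpow_of_exponent_le hL1 (Nat.le_ceil _)
      have h6 : (X : ℝ) ^ (1 + ε) ≤ (n : ℝ) ^ (1 + ε) * Real.log X ^ (1 + ε) := by
        rw [← Real.mul_rpow (by positivity) hL0.le]
        apply Real.rpow_le_rpow hX0.le _ (by positivity)
        rw [div_lt_iff₀ hL0] at hc
        exact hc.le
      have h7 : (X : ℝ) ^ (1 + ε) = (X : ℝ) ^ (1 + ε / 2) * (X : ℝ) ^ (ε / 2) := by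
        rw [← Real.rpow_add hX0]
        congr 1
        ring
      have h8 : (X : ℝ) ^ (1 + ε / 2) * (X : ℝ) ^ (ε / 2) ≤
          (n : ℝ) ^ (1 + ε) * (X : ℝ) ^ (ε / 2) := by
        rw [← h7]
        refine h6.trans ?_
        gcongr
      exact le_of_mul_le_mul_right h8 (by positivity)
  have hc : (((Icc 2 X).filter (fun n : ℕ => (n : ℝ) ^ (1 + ε) ≤ (gpf n : ℝ) * gpf (ff n) ∧
      (n.Prime ∨ (ff n).Prime ∨ (ff (ff n)).Prime))).card : ℝ) ≤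
      ((Icc 1 ⌊(X : ℝ) / Real.log X⌋₊).card : ℝ) +
      (((Icc 2 X).filter (fun n : ℕ => (X : ℝ) ^ (1 + ε / 2) ≤ (gpf n : ℝ) * gpf (ff n) ∧
      (n.Prime ∨ (ff n).Prime ∨ (ff (ff n)).Prime))).card : ℝ) := by
    rw [← Nat.cast_add]
    exact Nat.cast_le.2 ((card_le_card hsub).trans (card_union_le _ _))
  have h9 : ((Icc 1 ⌊(X : ℝ) / Real.log X⌋₊).card : ℝ) ≤
      1 * X * Real.log (Real.log X) ^ 3 / Real.log X := by
    rw [Nat.card_Icc, Nat.add_sub_cancel, one_mul]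
    refine (Nat.floor_le (by positivity)).trans ?_
    have h10 : (1 : ℝ) ≤ Real.log (Real.log X) ^ 3 := one_le_pow₀ hLL
    gcongr
    nlinarith
  calc _ ≤ _ := hc
    _ ≤ 1 * X * Real.log (Real.log X) ^ 3 / Real.log X +
        C * X * Real.log (Real.log X) ^ 3 / Real.log X := add_le_add h9 h1
    _ = _ := by ring

open scoped Classical in
theorem lower_n : ∃ ε c : ℝ, 0 < ε ∧ 0 < c ∧ ∃ X₀ : ℕ, ∀ X : ℕ, X₀ ≤ X →
    c * X ≤ (((Icc 2 X).filter (fun n : ℕ => (n : ℝ) ^ (1 + ε) ≤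
      (gpf n : ℝ) * gpf (ff n))).card : ℝ) := by
  obtain ⟨ε, c, hε, hc, X₀, h⟩ := lower
  refine ⟨ε, c, hε, hc, X₀, fun X hX => (h X hX).trans (Nat.cast_le.2 (card_le_card ?_))⟩
  intro n hn
  rw [mem_filter, mem_Icc] at hn ⊢
  refine ⟨hn.1, le_trans ?_ hn.2⟩
  exact Real.rpow_le_rpow (by positivity) (by exact_mod_cast hn.1.2) (by positivity)

/-- `(log log X)³ / log X` tends to zero -/
lemma lll_small (c : ℝ) (hc : 0 < c) : ∃ X₀ : ℕ, ∀ X : ℕ, X₀ ≤ X →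
    Real.log (Real.log X) ^ 3 / Real.log X ≤ c := by
  have h := (isLittleO_log_rpow_rpow_atTop (3 : ℝ) (show (0 : ℝ) < 1 by norm_num)).bound hc
  have ht : Filter.Tendsto (fun X : ℕ => Real.log (X : ℝ)) Filter.atTop Filter.atTop :=
    Real.tendsto_log_atTop.comp tendsto_natCast_atTop_atTop
  obtain ⟨X₀, hX₀⟩ := Filter.eventually_atTop.1 (ht.eventually h)
  refine ⟨X₀ + 16, fun X hX => ?_⟩
  have h2 := hX₀ X (by omega)
  have hL0 : 0 < Real.log X := Real.log_pos (by exact_mod_cast (by omega : 1 < X))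
  rw [div_le_iff₀ hL0]
  rw [Real.rpow_one, Real.norm_of_nonneg hL0.le] at h2
  refine le_trans ?_ h2
  have h3 : Real.log (Real.log X) ^ (3 : ℝ) = Real.log (Real.log X) ^ 3 := by
    rw [← Real.rpow_natCast]
    norm_num
  rw [h3]
  exact Real.le_norm_self _

open scoped Classical in
theorem composites : ∃ c : ℝ, 0 < c ∧ ∃ X₀ : ℕ, ∀ X : ℕ, X₀ ≤ X →
    c * X ≤ (((Icc 2 X).filter (fun n => ¬ n.Prime ∧ ¬ (ff n).Prime ∧
      ¬ (ff (ff n)).Prime)).card : ℝ) := by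
  obtain ⟨ε, c, hε, hc, X₁, h1⟩ := lower_n
  obtain ⟨C, hC, X₂, h2⟩ := main_n ε hε
  obtain ⟨X₃, h3⟩ := lll_small (c / 2 / C) (by positivity)
  refine ⟨c / 2, by positivity, X₁ + X₂ + X₃, fun X hX => ?_⟩
  have h1 := h1 X (by omega)
  have h2 := h2 X (by omega)
  have h3 := h3 X (by omega)
  have hsub : (Icc 2 X).filter (fun n : ℕ => (n : ℝ) ^ (1 + ε) ≤ (gpf n : ℝ) * gpf (ff n)) ⊆
      (Icc 2 X).filter (fun n : ℕ => (n : ℝ) ^ (1 + ε) ≤ (gpf n : ℝ) * gpf (ff n) ∧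
      (n.Prime ∨ (ff n).Prime ∨ (ff (ff n)).Prime)) ∪
      (Icc 2 X).filter (fun n => ¬ n.Prime ∧ ¬ (ff n).Prime ∧ ¬ (ff (ff n)).Prime) := by
    intro n hn
    rw [mem_filter] at hn
    rw [mem_union, mem_filter, mem_filter]
    by_cases h : n.Prime ∨ (ff n).Prime ∨ (ff (ff n)).Prime
    · exact Or.inl ⟨hn.1, hn.2, h⟩
    · push Not at h
      exact Or.inr ⟨hn.1, h⟩
  have h4 : (((Icc 2 X).filter (fun n : ℕ => (n : ℝ) ^ (1 + ε) ≤
      (gpf n : ℝ) * gpf (ff n))).card : ℝ) ≤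
      (((Icc 2 X).filter (fun n : ℕ => (n : ℝ) ^ (1 + ε) ≤ (gpf n : ℝ) * gpf (ff n) ∧
      (n.Prime ∨ (ff n).Prime ∨ (ff (ff n)).Prime))).card : ℝ) +
      (((Icc 2 X).filter (fun n => ¬ n.Prime ∧ ¬ (ff n).Prime ∧
        ¬ (ff (ff n)).Prime)).card : ℝ) := by
    rw [← Nat.cast_add]
    exact Nat.cast_le.2 ((card_le_card hsub).trans (card_union_le _ _))
  have h5 : C * X * Real.log (Real.log X) ^ 3 / Real.log X ≤ c / 2 * X := by
    calc C * X * Real.log (Real.log X) ^ 3 / Real.log X =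
          C * X * (Real.log (Real.log X) ^ 3 / Real.log X) := by ring
      _ ≤ C * X * (c / 2 / C) := by gcongr
      _ = c / 2 * X := by field_simp
  linarith

end Pool.Agent.SGJ
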