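import Pool.Agent.SGJ.Assemble

set_option autoImplicit false

/-!
# Three composites: counting the exceptional integers
-/

namespace Pool.Agent.SGJ

open Finset Pool.Agent.SGI Pool.Agent.HP

lemma sum_inv_le (X : ℕ) : ∑ m ∈ Icc 1 X, (1 : ℝ) / m ≤ 1 + Real.log X := by
  have h := harmonic_le_one_add_log X
  rw [harmonic_eq_sum_Icc] at h
  push_cast at h
  refine le_trans (le_of_eq ?_) h
  exact Finset.sum_congr rfl fun d _ => one_div _

open scoped Classical in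
/-- pairs `(m, q)` with `q² ∣ f (m P)` -/
lemma card_D {ε : ℝ} {X : ℕ} (hX : 16 ≤ X) :
    ((((Icc 1 X ×ˢ Icc 1 X).filter (fun p : ℕ × ℕ => (p.1 : ℝ) * (X : ℝ) ^ ε ≤ p.2 ∧
      (p.2 : ℝ) ^ 2 ≤ X * (1 + Real.log X))).biUnion (fun p =>
        ((Icc 1 (X / p.1)).filter (fun P => p.2 ^ 2 ∣ ArithmeticFunction.sigma 1 p.1 * P +
          (ArithmeticFunction.sigma 1 p.1 - 1))).image (fun P => p.1 * P))).card : ℝ) ≤
      2 * X * (1 + Real.log X) ^ 3 / (X : ℝ) ^ ε := by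
  have hX0 : (0 : ℝ) < X := by exact_mod_cast (by omega : 0 < X)
  have hX1 : (1 : ℝ) ≤ X := by exact_mod_cast (by omega : 1 ≤ X)
  have hL : 0 ≤ Real.log X := Real.log_nonneg hX1
  have hXe0 : 0 < (X : ℝ) ^ ε := by positivity
  calc _ ≤ ∑ p ∈ (Icc 1 X ×ˢ Icc 1 X).filter (fun p : ℕ × ℕ => (p.1 : ℝ) * (X : ℝ) ^ ε ≤ p.2 ∧
      (p.2 : ℝ) ^ 2 ≤ X * (1 + Real.log X)), (2 * X * (1 + Real.log X) / (X : ℝ) ^ ε) *
        ((1 : ℝ) / p.1 * (1 / p.2)) := by
        refine le_trans (Nat.cast_le.2 Finset.card_biUnion_le) ?_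
        rw [Nat.cast_sum]
        refine Finset.sum_le_sum fun p hp => ?_
        rw [mem_filter, mem_product, mem_Icc, mem_Icc] at hp
        obtain ⟨⟨⟨hp1, hp2⟩, ⟨hq1, hq2⟩⟩, hpq, hqX⟩ := hp
        have hm0 : (0 : ℝ) < p.1 := by exact_mod_cast hp1
        have hm1 : (1 : ℝ) ≤ p.1 := by exact_mod_cast hp1
        have hq0 : (0 : ℝ) < p.2 := by exact_mod_cast hq1
        have h1 : ((((Icc 1 (X / p.1)).filter (fun P => p.2 ^ 2 ∣
            ArithmeticFunction.sigma 1 p.1 * P +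
            (ArithmeticFunction.sigma 1 p.1 - 1))).image (fun P => p.1 * P)).card : ℝ) ≤
            ((X / p.1 / p.2 ^ 2 + 1 : ℕ) : ℝ) := by
          have h2 := card_cls (Z := X / p.1) (r := p.2 ^ 2) (Nat.one_le_pow _ _ hq1)
            ((Icc 1 (X / p.1)).filter (fun P => p.2 ^ 2 ∣ ArithmeticFunction.sigma 1 p.1 * P +
            (ArithmeticFunction.sigma 1 p.1 - 1))) (filter_subset _ _) (by
              intro P hP P' hP'
              rw [mem_filter] at hP hP'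
              refine cls ?_ hP.2 hP'.2
              have h3 := sigma_pos hp1
              have h4 : ArithmeticFunction.sigma 1 p.1 =
                (ArithmeticFunction.sigma 1 p.1 - 1) + 1 := by omega
              rw [Nat.coprime_comm]
              exact (Nat.coprime_self_sub_right h3).2 (Nat.coprime_one_right _) |>.symm)
          exact Nat.cast_le.2 ((card_image_le).trans h2)
        refine h1.trans ?_
        have h5 : ((X / p.1 / p.2 ^ 2 : ℕ) : ℝ) ≤ X / p.1 / (p.2 : ℝ) ^ 2 := by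
          calc ((X / p.1 / p.2 ^ 2 : ℕ) : ℝ) ≤ ((X / p.1 : ℕ) : ℝ) / ((p.2 ^ 2 : ℕ) : ℝ) :=
                Nat.cast_div_le
            _ ≤ (X / p.1) / ((p.2 ^ 2 : ℕ) : ℝ) := by
                gcongr
                exact Nat.cast_div_le
            _ = _ := by push_cast; ring
        push_cast
        have h6 : (X : ℝ) / p.1 / (p.2 : ℝ) ^ 2 ≤ X * (1 + Real.log X) / (p.2 : ℝ) ^ 2 := by
          gcongr
          calc (X : ℝ) / p.1 ≤ X := div_le_self hX0.le hm1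
            _ ≤ X * (1 + Real.log X) := by nlinarith
        have h7 : (1 : ℝ) ≤ X * (1 + Real.log X) / (p.2 : ℝ) ^ 2 := by
          rw [le_div_iff₀ (by positivity), one_mul]
          exact hqX
        have h8 : 1 ≤ (p.2 : ℝ) / (p.1 * (X : ℝ) ^ ε) := by
          rw [le_div_iff₀ (by positivity), one_mul]
          exact hpq
        calc ((X / p.1 / p.2 ^ 2 : ℕ) : ℝ) + 1 ≤ 2 * (X * (1 + Real.log X) / (p.2 : ℝ) ^ 2) := by
              linarith
          _ = 2 * (X * (1 + Real.log X) / (p.2 : ℝ) ^ 2) * 1 := by ring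
          _ ≤ 2 * (X * (1 + Real.log X) / (p.2 : ℝ) ^ 2) * ((p.2 : ℝ) / (p.1 * (X : ℝ) ^ ε)) := by
              gcongr
          _ = _ := by field_simp
    _ ≤ ∑ p ∈ Icc 1 X ×ˢ Icc 1 X, (2 * X * (1 + Real.log X) / (X : ℝ) ^ ε) *
        ((1 : ℝ) / p.1 * (1 / p.2)) :=
        Finset.sum_le_sum_of_subset_of_nonneg (filter_subset _ _) fun p _ _ => by positivity
    _ = (2 * X * (1 + Real.log X) / (X : ℝ) ^ ε) *
        ((∑ m ∈ Icc 1 X, (1 : ℝ) / m) * (∑ m ∈ Icc 1 X, (1 : ℝ) / m)) := by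
        rw [← Finset.mul_sum, Finset.sum_mul_sum, Finset.sum_product]
    _ ≤ (2 * X * (1 + Real.log X) / (X : ℝ) ^ ε) * ((1 + Real.log X) * (1 + Real.log X)) := by
        have h := sum_inv_le X
        have h0 : 0 ≤ ∑ m ∈ Icc 1 X, (1 : ℝ) / m := Finset.sum_nonneg fun m _ => by positivity
        gcongr
    _ = _ := by ring

open scoped Classical in
/-- at most `C X (log log X)³ / log X` integers `n ≤ X` with a large product of the greatest
prime factors of `n` and `f n` have a prime among `n`, `f n`, `f (f n)` -/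
theorem main_X (ε : ℝ) (hε : 0 < ε) : ∃ C : ℝ, 0 < C ∧ ∃ X₀ : ℕ, ∀ X : ℕ, X₀ ≤ X →
    (((Icc 2 X).filter (fun n => (X : ℝ) ^ (1 + ε) ≤ (gpf n : ℝ) * gpf (ff n) ∧
      (n.Prime ∨ (ff n).Prime ∨ (ff (ff n)).Prime))).card : ℝ) ≤
      C * X * Real.log (Real.log X) ^ 3 / Real.log X := by
  obtain ⟨C₂, hC₂, X₂, h2⟩ := cell2 ε hε
  obtain ⟨C₃, hC₃, X₃, h3⟩ := cell3 ε hε
  obtain ⟨C₀, hC₀, h0⟩ := bti
  obtain ⟨X₁, h1⟩ := params ε hε
  refine ⟨1 + C₀ + 2 * C₂ + 4 * C₃ + 16, by positivity, X₁ + X₂ + X₃, fun X hX => ?_⟩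
  obtain ⟨hX16, hz, hlz, hz6, hL3, hLL, hLz, hzL⟩ := h1 X (by omega)
  have h2 := h2 X (by omega)
  have h3 := h3 X (by omega)
  obtain ⟨z, hzdef⟩ : ∃ z, z = zz ε X := ⟨_, rfl⟩
  rw [← hzdef] at hz hlz hz6 hLz hzL h2 h3
  have hX0 : (0 : ℝ) < X := by exact_mod_cast (by omega : 0 < X)
  have hX1 : (1 : ℝ) ≤ X := by exact_mod_cast (by omega : 1 ≤ X)
  have hL0 : 0 < Real.log X := Real.log_pos (by exact_mod_cast (by omega : 1 < X))
  have hL1 : 1 ≤ Real.log X := by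
    by_contra hc
    push Not at hc
    have h4 : Real.log (Real.log X) < 0 := Real.log_neg hL0 hc
    linarith
  set L := Real.log X with hLdef
  set LL := Real.log L with hLLdef
  have hz1 : (1 : ℝ) ≤ z := by exact_mod_cast (by omega : 1 ≤ z)
  have hLL1 : (1 : ℝ) ≤ LL ^ 3 := one_le_pow₀ hLL
  -- the five sets
  set A1 := (Icc 1 X).filter (fun n => ∃ q : ℕ, z < q ∧ q ^ 2 ∣ n) with hA1
  set A2 := (Icc 1 X).filter (fun q => q.Prime ∧ q ≡ 0 [MOD 1]) with hA2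
  set B2 := ((Icc 2 X).filter (fun m : ℕ => (m : ℝ) ≤ (X : ℝ) ^ (1 - ε / 2))).biUnion (fun m =>
    ((Icc 1 (X / m)).filter (fun P => P.Prime ∧ z < P ∧
      (ArithmeticFunction.sigma 1 m * (P + 1) - 1).Prime ∧
      z < ArithmeticFunction.sigma 1 m * (P + 1) - 1)).image (fun P => m * P)) with hB2
  set B3 := ((Icc 2 X ×ˢ Icc 2 X).filter (fun p : ℕ × ℕ =>
      (p.1 : ℝ) * p.2 ≤ (X : ℝ) ^ (1 - ε / 2))).biUnion (fun p =>
    ((Icc 1 (X / p.1)).filter (fun P => P ∈ TS (X / p.1) z (ArithmeticFunction.sigma 1 p.1) p.2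
      (ArithmeticFunction.sigma 1 p.2))).image (fun P => p.1 * P)) with hB3
  set D := ((Icc 1 X ×ˢ Icc 1 X).filter (fun p : ℕ × ℕ => (p.1 : ℝ) * (X : ℝ) ^ ε ≤ p.2 ∧
      (p.2 : ℝ) ^ 2 ≤ X * (1 + L))).biUnion (fun p =>
        ((Icc 1 (X / p.1)).filter (fun P => p.2 ^ 2 ∣ ArithmeticFunction.sigma 1 p.1 * P +
          (ArithmeticFunction.sigma 1 p.1 - 1))).image (fun P => p.1 * P)) with hD
  have hsub : (Icc 2 X).filter (fun n => (X : ℝ) ^ (1 + ε) ≤ (gpf n : ℝ) * gpf (ff n) ∧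
      (n.Prime ∨ (ff n).Prime ∨ (ff (ff n)).Prime)) ⊆ A1 ∪ (A2 ∪ (B2 ∪ (B3 ∪ D))) := by
    intro n hn
    rw [mem_filter, mem_Icc] at hn
    obtain ⟨⟨hn2, hnX⟩, hn3, hn4⟩ := hn
    rcases classify hε hX16 hz hzL hL1 hn2 hnX hn3 hn4 with h | h | h
    · exact mem_union_left _ (mem_filter.2 ⟨mem_Icc.2 ⟨by omega, hnX⟩, h⟩)
    · exact mem_union_right _ (mem_union_left _
        (mem_filter.2 ⟨mem_Icc.2 ⟨by omega, hnX⟩, h, Nat.modEq_one⟩))
    · obtain ⟨m, P, hnm, hm2, hmX, hPp, hPz, hPX, hP1, h⟩ := h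
      refine mem_union_right _ (mem_union_right _ ?_)
      rcases h with ⟨ha, hb, hc⟩ | ⟨b, hb2, hbX, hb3, hb4⟩ | ⟨q, hq, hqm, hqX, hqd⟩
      · refine mem_union_left _ (mem_biUnion.2 ⟨m, mem_filter.2 ⟨mem_Icc.2 ⟨hm2, hmX⟩, ha⟩, ?_⟩)
        exact mem_image.2 ⟨P, mem_filter.2 ⟨mem_Icc.2 ⟨hP1, hPX⟩, hPp, hPz, hb, hc⟩, hnm.symm⟩
      · refine mem_union_right _ (mem_union_left _ (mem_biUnion.2 ⟨(m, b), mem_filter.2
          ⟨mem_product.2 ⟨mem_Icc.2 ⟨hm2, hmX⟩, mem_Icc.2 ⟨hb2, hbX⟩⟩, hb3⟩, ?_⟩))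
        exact mem_image.2 ⟨P, mem_filter.2 ⟨mem_Icc.2 ⟨hP1, hPX⟩, hb4⟩, hnm.symm⟩
      · refine mem_union_right _ (mem_union_right _ (mem_biUnion.2 ⟨(m, q), mem_filter.2
          ⟨mem_product.2 ⟨mem_Icc.2 ⟨by omega, hmX⟩, mem_Icc.2 ⟨hq.one_le, ?_⟩⟩, hqm, hqX⟩, ?_⟩))
        · have h5 : (q : ℝ) ^ 2 ≤ (X : ℝ) ^ 2 := by
            refine hqX.trans ?_
            have h6 := Real.log_le_sub_one_of_pos hX0
            rw [← hLdef] at h6
            nlinarith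
          have h7 : (q : ℝ) ≤ X := by
            exact (pow_le_pow_iff_left₀ (by positivity) hX0.le (by norm_num)).1 h5
          exact_mod_cast h7
        · exact mem_image.2 ⟨P, mem_filter.2 ⟨mem_Icc.2 ⟨hP1, hPX⟩, hqd⟩, hnm.symm⟩
  have hcard : (((Icc 2 X).filter (fun n => (X : ℝ) ^ (1 + ε) ≤ (gpf n : ℝ) * gpf (ff n) ∧
      (n.Prime ∨ (ff n).Prime ∨ (ff (ff n)).Prime))).card : ℝ) ≤
      A1.card + (A2.card + (B2.card + (B3.card + D.card))) := by
    refine le_trans (Nat.cast_le.2 (card_le_card hsub)) ?_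
    have e1 := card_union_le A1 (A2 ∪ (B2 ∪ (B3 ∪ D)))
    have e2 := card_union_le A2 (B2 ∪ (B3 ∪ D))
    have e3 := card_union_le B2 (B3 ∪ D)
    have e4 := card_union_le B3 D
    have e5 : (A1 ∪ (A2 ∪ (B2 ∪ (B3 ∪ D)))).card ≤
      A1.card + (A2.card + (B2.card + (B3.card + D.card))) := by omega
    exact_mod_cast e5
  have hXL : (X : ℝ) / L ≤ X * LL ^ 3 / L := by
    gcongr
    nlinarith
  have cA1 : (A1.card : ℝ) ≤ 1 * (X * LL ^ 3 / L) := by
    have h5 := card_sq_le X z (by omega)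
    calc (A1.card : ℝ) ≤ X / z := by
          refine le_trans (le_of_eq ?_) h5
          rw [hA1]
      _ ≤ X / L := by gcongr
      _ ≤ _ := by rw [one_mul]; exact hXL
  have cA2 : (A2.card : ℝ) ≤ C₀ * (X * LL ^ 3 / L) := by
    have h5 := h0 1 0 X le_rfl (by omega) (by omega)
    rw [Nat.totient_one, Nat.cast_one, one_mul] at h5
    calc (A2.card : ℝ) ≤ C₀ * X / L := by
          refine le_trans (le_of_eq ?_) h5
          rw [hA2]
      _ = C₀ * (X / L) := by ring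
      _ ≤ _ := by gcongr
  have hsum : ∑ m ∈ Icc 1 X, (1 : ℝ) / m ≤ 2 * L := (sum_inv_le X).trans (by linarith)
  have hsum0 : 0 ≤ ∑ m ∈ Icc 1 X, (1 : ℝ) / m := Finset.sum_nonneg fun m _ => by positivity
  have cB2 : (B2.card : ℝ) ≤ 2 * C₂ * (X * LL ^ 3 / L) := by
    calc (B2.card : ℝ) ≤ ∑ m ∈ (Icc 2 X).filter (fun m : ℕ => (m : ℝ) ≤ (X : ℝ) ^ (1 - ε / 2)),
          C₂ * (LL ^ 2 / L ^ 2) * X * ((1 : ℝ) / m) := by
          rw [hB2]
          refine le_trans (Nat.cast_le.2 Finset.card_biUnion_le) ?_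
          rw [Nat.cast_sum]
          refine Finset.sum_le_sum fun m hm => ?_
          rw [mem_filter, mem_Icc] at hm
          refine le_trans (Nat.cast_le.2 card_image_le) ((h2 m hm.1.1 hm.2).trans
            (le_of_eq ?_))
          ring
      _ ≤ ∑ m ∈ Icc 1 X, C₂ * (LL ^ 2 / L ^ 2) * X * ((1 : ℝ) / m) := by
          apply Finset.sum_le_sum_of_subset_of_nonneg
          · intro m hm
            rw [mem_filter, mem_Icc] at hm
            exact mem_Icc.2 ⟨by omega, hm.1.2⟩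
          · intro m _ _
            positivity
      _ = C₂ * (LL ^ 2 / L ^ 2) * X * ∑ m ∈ Icc 1 X, (1 : ℝ) / m := by rw [Finset.mul_sum]
      _ ≤ C₂ * (LL ^ 3 / L ^ 2) * X * (2 * L) := by
          gcongr
          norm_num
      _ = 2 * C₂ * (X * LL ^ 3 / L) := by field_simp
  have cB3 : (B3.card : ℝ) ≤ 4 * C₃ * (X * LL ^ 3 / L) := by
    calc (B3.card : ℝ) ≤ ∑ p ∈ (Icc 2 X ×ˢ Icc 2 X).filter (fun p : ℕ × ℕ =>
          (p.1 : ℝ) * p.2 ≤ (X : ℝ) ^ (1 - ε / 2)),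
          C₃ * (LL ^ 3 / L ^ 3) * X * ((1 : ℝ) / p.1 * (1 / p.2)) := by
          rw [hB3]
          refine le_trans (Nat.cast_le.2 Finset.card_biUnion_le) ?_
          rw [Nat.cast_sum]
          refine Finset.sum_le_sum fun p hp => ?_
          rw [mem_filter, mem_product, mem_Icc, mem_Icc] at hp
          refine le_trans (Nat.cast_le.2 card_image_le) ((h3 p.1 p.2 hp.1.1.1 hp.1.2.1
            hp.2).trans (le_of_eq ?_))
          have : (p.1 : ℝ) ≠ 0 := by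
            have := hp.1.1.1
            exact_mod_cast (by omega : p.1 ≠ 0)
          have : (p.2 : ℝ) ≠ 0 := by
            have := hp.1.2.1
            exact_mod_cast (by omega : p.2 ≠ 0)
          field_simp
      _ ≤ ∑ p ∈ Icc 1 X ×ˢ Icc 1 X, C₃ * (LL ^ 3 / L ^ 3) * X * ((1 : ℝ) / p.1 * (1 / p.2)) := by
          apply Finset.sum_le_sum_of_subset_of_nonneg
          · intro p hp
            rw [mem_filter, mem_product, mem_Icc, mem_Icc] at hp
            exact mem_product.2 ⟨mem_Icc.2 ⟨by omega, hp.1.1.2⟩, mem_Icc.2 ⟨by omega, hp.1.2.2⟩⟩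
          · intro p _ _
            have : 0 ≤ LL := by linarith
            positivity
      _ = C₃ * (LL ^ 3 / L ^ 3) * X *
          ((∑ m ∈ Icc 1 X, (1 : ℝ) / m) * (∑ m ∈ Icc 1 X, (1 : ℝ) / m)) := by
          rw [← Finset.mul_sum, Finset.sum_mul_sum, Finset.sum_product]
      _ ≤ C₃ * (LL ^ 3 / L ^ 3) * X * ((2 * L) * (2 * L)) := by
          have : 0 ≤ LL := by linarith
          gcongr
      _ = 4 * C₃ * (X * LL ^ 3 / L) := by field_simp; ring
  have cD : (D.card : ℝ) ≤ 16 * (X * LL ^ 3 / L) := by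
    have hXe0 : 0 < (X : ℝ) ^ ε := by positivity
    have h4 : L ^ 4 ≤ (X : ℝ) ^ ε := by
      have h5 : L ≤ (X : ℝ) ^ (ε / 8) := by
        refine hLz.trans (le_trans ?_ hz6)
        exact le_self_pow₀ hz1 (by norm_num)
      calc L ^ 4 = L ^ 3 * L := by ring
        _ ≤ (X : ℝ) ^ (3 * ε / 8) * (X : ℝ) ^ (ε / 8) := by gcongr
        _ = (X : ℝ) ^ (ε / 2) := by
            rw [← Real.rpow_add hX0]
            congr 1
            ring
        _ ≤ (X : ℝ) ^ ε := Real.rpow_le_rpow_of_exponent_le hX1 (by linarith)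
    calc (D.card : ℝ) ≤ 2 * X * (1 + L) ^ 3 / (X : ℝ) ^ ε := card_D hX16
      _ ≤ 2 * X * (2 * L) ^ 3 / L ^ 4 := by
          gcongr
          linarith
      _ = 16 * (X / L) := by field_simp; ring
      _ ≤ _ := by gcongr
  calc _ ≤ (A1.card : ℝ) + (A2.card + (B2.card + (B3.card + D.card))) := hcard
    _ ≤ (1 + C₀ + 2 * C₂ + 4 * C₃ + 16) * (X * LL ^ 3 / L) := by linarith
    _ = _ := by ring

end Pool.Agent.SGJ
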