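import Pool.Agent.HP.BTI
import Pool.Agent.HP.MKV

/-!
# The smooth part of `a q + h`, `q` prime, `a` and `h` coprime

Same proof as `Pool/Agent/HP/SMP.lean` (where `a = 1`).
-/

set_option autoImplicit false

namespace Pool.Agent.SGJ

open Finset Pool.Agent.HP

private def smpP (y : ℕ) : Finset ℕ := (Finset.Icc 1 y).filter Nat.Prime

private theorem smpP_mem {y p : ℕ} : p ∈ smpP y ↔ p ≤ y ∧ p.Prime := by
  unfold smpP
  rw [Finset.mem_filter, Finset.mem_Icc]
  constructor
  · rintro ⟨⟨_, h2⟩, h3⟩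
    exact ⟨h2, h3⟩
  · rintro ⟨h2, h3⟩
    exact ⟨⟨h3.one_lt.le, h2⟩, h3⟩

private theorem smp_sp (y n : ℕ) : sp y n = ∏ p ∈ smpP y, p ^ (n.factorization p) := by
  unfold sp
  rw [Finset.prod_list_count_of_subset _ (smpP y)]
  · apply Finset.prod_congr rfl
    intro p hp
    obtain ⟨hpy, hpp⟩ := smpP_mem.1 hp
    rw [List.count_filter (by simpa using hpy), Nat.primeFactorsList_count_eq]
  · intro p hp
    rw [List.mem_toFinset, List.mem_filter] at hp
    exact smpP_mem.2 ⟨by simpa using hp.2, Nat.prime_of_mem_primeFactorsList hp.1⟩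

private theorem smp_log_sp (y n : ℕ) :
    Real.log (sp y n) = ∑ p ∈ smpP y, (n.factorization p : ℝ) * Real.log p := by
  rw [smp_sp]
  push_cast
  rw [Real.log_prod]
  · apply Finset.sum_congr rfl
    intro p _
    rw [Real.log_pow]
  · intro p hp
    have hpp := (smpP_mem.1 hp).2
    have : (p : ℝ) ≠ 0 := by exact_mod_cast hpp.ne_zero
    positivity

/-- `∑_{1 ≤ k ≤ K} 1/φ(p^k) ≤ 2/(p-1)`. -/
private lemma smp_phi {p : ℕ} (hp : p.Prime) (K : ℕ) :
    ∑ k ∈ Finset.Icc 1 K, 1 / (Nat.totient (p ^ k) : ℝ) ≤ 2 / ((p : ℝ) - 1) := by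
  have hp2 : (2 : ℝ) ≤ p := by exact_mod_cast hp.two_le
  have hp1 : (0 : ℝ) < (p : ℝ) - 1 := by linarith
  have key : ∀ K : ℕ, ∑ k ∈ Finset.Icc 1 K, 1 / (Nat.totient (p ^ k) : ℝ) ≤
      (2 - 2 / (2 : ℝ) ^ K) / ((p : ℝ) - 1) := by
    intro K
    induction K with
    | zero => simp
    | succ n ih =>
      rw [Finset.sum_Icc_succ_top (by omega)]
      have h1 : (Nat.totient (p ^ (n + 1)) : ℝ) = (p : ℝ) ^ n * ((p : ℝ) - 1) := by
        rw [Nat.totient_prime_pow_succ hp]
        push_cast [Nat.cast_sub hp.one_le]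
        ring
      rw [h1]
      have h2 : 1 / ((p : ℝ) ^ n * ((p : ℝ) - 1)) ≤ (1 / (2 : ℝ) ^ n) / ((p : ℝ) - 1) := by
        rw [← div_div]
        refine div_le_div_of_nonneg_right ?_ hp1.le
        exact one_div_le_one_div_of_le (by positivity) (pow_le_pow_left₀ (by norm_num) hp2 n)
      calc _ ≤ (2 - 2 / (2 : ℝ) ^ n) / ((p : ℝ) - 1) + (1 / (2 : ℝ) ^ n) / ((p : ℝ) - 1) := add_le_add ih h2
        _ = (2 - 2 / (2 : ℝ) ^ (n + 1)) / ((p : ℝ) - 1) := by
          rw [← add_div, pow_succ]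
          congr 1
          field_simp
          ring
  refine (key K).trans (div_le_div_of_nonneg_right ?_ hp1.le)
  have : 0 < 2 / (2 : ℝ) ^ K := by positivity
  linarith

/-- the logarithm of the smooth part as a sum over the prime powers dividing the integer -/
private lemma smp_logsum {n y : ℕ} (hn : n ≠ 0) (K : ℕ → ℕ)
    (hK : ∀ p ∈ smpP y, ¬ p ^ (K p + 1) ∣ n) :
    Real.log (sp y n) ≤ ∑ p ∈ smpP y, ∑ k ∈ Finset.Icc 1 (K p),
      (if p ^ k ∣ n then Real.log p else 0) := by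
  rw [smp_log_sp]
  apply Finset.sum_le_sum
  intro p hp
  obtain ⟨hpy, hp1⟩ := smpP_mem.1 hp
  have hlogp : 0 ≤ Real.log p := Real.log_natCast_nonneg p
  have hlt : n.factorization p ≤ K p := by
    by_contra hc
    push Not at hc
    exact hK p hp ((hp1.pow_dvd_iff_le_factorization hn).mpr hc)
  have h4 : Finset.Icc 1 (n.factorization p) ⊆ Finset.Icc 1 (K p) :=
    Finset.Icc_subset_Icc_right hlt
  calc (n.factorization p : ℝ) * Real.log p
      = ∑ k ∈ Finset.Icc 1 (n.factorization p), Real.log p := by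
        rw [Finset.sum_const, Nat.card_Icc, nsmul_eq_mul]
        simp
    _ = ∑ k ∈ Finset.Icc 1 (n.factorization p), (if p ^ k ∣ n then Real.log p else 0) := by
        refine Finset.sum_congr rfl fun k hk => ?_
        rw [if_pos ((hp1.pow_dvd_iff_le_factorization hn).mpr (Finset.mem_Icc.mp hk).2)]
    _ ≤ _ := Finset.sum_le_sum_of_subset_of_nonneg h4 fun k _ _ => by split_ifs <;> simp [hlogp]

/-- two solutions of `r ∣ a q + h` are congruent -/
lemma cls {a h r q q' : ℕ} (hc : Nat.Coprime a h) (h1 : r ∣ a * q + h) (h2 : r ∣ a * q' + h) :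
    q ≡ q' [MOD r] := by
  have hg : Nat.Coprime r a := by
    have h3 : Nat.gcd r a ∣ a * q + h := (Nat.gcd_dvd_left r a).trans h1
    have h4 : Nat.gcd r a ∣ a * q := (Nat.gcd_dvd_right r a).mul_right q
    have h5 : Nat.gcd r a ∣ h := (Nat.dvd_add_right h4).1 h3
    have h6 := Nat.dvd_gcd (Nat.gcd_dvd_right r a) h5
    rw [Nat.Coprime] at hc
    rw [hc] at h6
    exact Nat.dvd_one.1 h6
  have h3 : a * q + h ≡ a * q' + h [MOD r] :=
    (Nat.modEq_zero_iff_dvd.2 h1).trans (Nat.modEq_zero_iff_dvd.2 h2).symm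
  have h4 : a * q ≡ a * q' [MOD r] := Nat.ModEq.add_right_cancel' h h3
  exact Nat.ModEq.cancel_left_of_coprime hg h4

/-- a set of pairwise congruent integers in `[1, Z]` is small -/
lemma card_cls {Z r : ℕ} (_hr : 1 ≤ r) (S : Finset ℕ) (hS : S ⊆ Finset.Icc 1 Z)
    (h : ∀ q ∈ S, ∀ q' ∈ S, q ≡ q' [MOD r]) : S.card ≤ Z / r + 1 := by
  have h1 : S.card ≤ (Finset.range (Z / r + 1)).card := by
    apply card_le_card_of_injOn (fun q => q / r)
    · intro q hq
      rw [mem_coe] at hq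
      rw [mem_coe, mem_range]
      exact Nat.lt_succ_of_le (Nat.div_le_div_right (mem_Icc.1 (hS hq)).2)
    · intro q hq q' hq' he
      simp only at he
      have h2 := h q hq q' hq'
      have h3 := Nat.div_add_mod q r
      have h4 := Nat.div_add_mod q' r
      rw [he, show q % r = q' % r from h2] at h3
      omega
  rwa [card_range] at h1

theorem smpa : ∃ C : ℝ, 0 < C ∧ ∀ Z y a h : ℕ, 2 ≤ Z → 1 ≤ y → Nat.Coprime a h → ∀ b : ℝ, 0 < b →
    (((Finset.Icc 1 Z).filter (fun q => q.Prime ∧ b ≤ Real.log (sp y (a * q + h)))).card : ℝ) * b ≤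
      C * (Z / Real.log Z) * (1 + Real.log y) + C * b * y ^ 2 * Real.sqrt Z := by
  classical
  obtain ⟨C₀, hC₀, h0⟩ := mkv0
  obtain ⟨C₁, hC₁, hbt⟩ := bti
  refine ⟨2 * C₁ * C₀ + 3, by positivity, fun Z y a h hZ hy hco b hb => ?_⟩
  have hZ0 : (0 : ℝ) < Z := by
    have : 0 < Z := by omega
    exact_mod_cast this
  have hZ1 : (1 : ℝ) ≤ Z := by
    have : 1 ≤ Z := by omega
    exact_mod_cast this
  have hlogZ : 0 < Real.log Z := Real.log_pos (by
    have : 1 < Z := by omega
    exact_mod_cast this)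
  have hy1 : (1 : ℝ) ≤ y := by exact_mod_cast hy
  have hlogy : 0 ≤ Real.log y := Real.log_nonneg hy1
  have hsq : 1 ≤ Real.sqrt Z := by
    rw [Real.one_le_sqrt]
    exact hZ1
  have hsq2 := Real.mul_self_sqrt hZ0.le
  obtain ⟨K, hK⟩ : ∃ K : ℕ → ℕ, ∀ p, K p = Nat.log (p ^ 2) Z := ⟨fun p => Nat.log (p ^ 2) Z, fun _ => rfl⟩
  have hK1 : ∀ p : ℕ, (p ^ K p) ^ 2 ≤ Z := by
    intro p
    rw [hK, ← pow_mul, mul_comm, pow_mul]
    exact Nat.pow_log_le_self _ (by omega)
  have hK2 : ∀ p : ℕ, p.Prime → Z < (p ^ (K p + 1)) ^ 2 := by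
    intro p hp
    rw [hK, ← pow_mul, mul_comm, pow_mul]
    apply Nat.lt_pow_succ_log_self
    have := hp.two_le
    nlinarith
  -- the bad primes
  set Bad : Finset ℕ := (smpP y).biUnion
    (fun p => (Finset.Icc 1 Z).filter (fun q => p ^ (K p + 1) ∣ a * q + h)) with hBad
  have hbad : (Bad.card : ℝ) ≤ 3 * y ^ 2 * Real.sqrt Z := by
    have h1 : (Bad.card : ℝ) ≤ ∑ p ∈ smpP y,
        (((Finset.Icc 1 Z).filter (fun q => p ^ (K p + 1) ∣ a * q + h)).card : ℝ) := by
      rw [hBad]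
      exact_mod_cast card_biUnion_le
    have h2 : ∀ p ∈ smpP y,
        (((Finset.Icc 1 Z).filter (fun q => p ^ (K p + 1) ∣ a * q + h)).card : ℝ) ≤
          3 * Real.sqrt Z := by
      intro p hp
      have hpp := (smpP_mem.1 hp).2
      set r : ℕ := p ^ (K p + 1) with hr
      have hr1 : 1 ≤ r := Nat.one_le_pow _ _ hpp.pos
      have hr0 : (0 : ℝ) < r := by exact_mod_cast hr1
      have h3 := card_cls hr1 ((Finset.Icc 1 Z).filter (fun q => r ∣ a * q + h))
        (filter_subset _ _) (fun q hq q' hq' => cls hco (mem_filter.1 hq).2 (mem_filter.1 hq').2)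
      have h4 : (((Finset.Icc 1 Z).filter (fun q => r ∣ a * q + h)).card : ℝ) ≤
          ((Z / r : ℕ) : ℝ) + 1 := by exact_mod_cast h3
      have h5 : ((Z / r : ℕ) : ℝ) ≤ (Z : ℝ) / r := Nat.cast_div_le
      have h6 : Real.sqrt Z ≤ r := by
        rw [Real.sqrt_le_left hr0.le]
        have := (hK2 p hpp).le
        exact_mod_cast this
      have h7 : (Z : ℝ) / r ≤ Real.sqrt Z := by
        rw [div_le_iff₀ hr0]
        calc (Z : ℝ) = Real.sqrt Z * Real.sqrt Z := hsq2.symm
          _ ≤ Real.sqrt Z * r := by gcongr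
      linarith
    have h3 : ((smpP y).card : ℝ) ≤ y := by
      have h4 : (smpP y).card ≤ y := by
        unfold smpP
        refine (card_filter_le _ _).trans ?_
        rw [Nat.card_Icc]
        omega
      exact_mod_cast h4
    calc (Bad.card : ℝ) ≤ ∑ p ∈ smpP y, 3 * Real.sqrt Z := h1.trans (sum_le_sum h2)
      _ = (smpP y).card * (3 * Real.sqrt Z) := by rw [sum_const, nsmul_eq_mul]
      _ ≤ y * (3 * Real.sqrt Z) := by gcongr
      _ ≤ y ^ 2 * (3 * Real.sqrt Z) := by
          have : (y : ℝ) ≤ y ^ 2 := by nlinarith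
          gcongr
      _ = 3 * y ^ 2 * Real.sqrt Z := by ring
  -- the good primes
  set Q := (Finset.Icc 1 Z).filter (fun q => q.Prime) with hQ
  set Good := (Q \ Bad).filter (fun q => b ≤ Real.log (sp y (a * q + h))) with hGood
  have hgood : (Good.card : ℝ) * b ≤ 2 * C₁ * C₀ * (Z / Real.log Z) * (1 + Real.log y) := by
    have e1 : (Good.card : ℝ) * b ≤ ∑ q ∈ Good, ∑ p ∈ smpP y, ∑ k ∈ Finset.Icc 1 (K p),
        (if p ^ k ∣ a * q + h then Real.log p else 0) := by
      rw [← nsmul_eq_mul, ← sum_const]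
      apply sum_le_sum
      intro q hq
      rw [hGood, mem_filter, mem_sdiff, hQ, mem_filter] at hq
      refine hq.2.trans (smp_logsum ?_ K ?_)
      · have hq0 := hq.1.1.2.pos
        intro h0
        obtain ⟨h1, h2⟩ := Nat.add_eq_zero_iff.1 h0
        rcases Nat.mul_eq_zero.1 h1 with h3 | h3
        · rw [h2, h3] at hco
          exact absurd hco (by decide)
        · omega
      · intro p hp hd
        apply hq.1.2
        rw [hBad, mem_biUnion]
        exact ⟨p, hp, mem_filter.2 ⟨hq.1.1.1, hd⟩⟩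
    have e2 : ∑ q ∈ Good, ∑ p ∈ smpP y, ∑ k ∈ Finset.Icc 1 (K p),
        (if p ^ k ∣ a * q + h then Real.log p else 0) ≤
        ∑ q ∈ Q, ∑ p ∈ smpP y, ∑ k ∈ Finset.Icc 1 (K p),
        (if p ^ k ∣ a * q + h then Real.log p else 0) := by
      apply sum_le_sum_of_subset_of_nonneg
      · exact (filter_subset _ _).trans sdiff_subset
      · intro q _ _
        refine sum_nonneg fun p _ => sum_nonneg fun k _ => ?_
        split_ifs
        · exact Real.log_natCast_nonneg p
        · exact le_refl _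
    have e3 : ∑ q ∈ Q, ∑ p ∈ smpP y, ∑ k ∈ Finset.Icc 1 (K p),
        (if p ^ k ∣ a * q + h then Real.log p else 0) =
        ∑ p ∈ smpP y, ∑ k ∈ Finset.Icc 1 (K p),
          ((Q.filter (fun q => p ^ k ∣ a * q + h)).card : ℝ) * Real.log p := by
      rw [sum_comm]
      refine sum_congr rfl fun p _ => ?_
      rw [sum_comm]
      refine sum_congr rfl fun k _ => ?_
      rw [← sum_filter, sum_const, nsmul_eq_mul]
    have e4 : ∀ p ∈ smpP y, ∑ k ∈ Finset.Icc 1 (K p),
          ((Q.filter (fun q => p ^ k ∣ a * q + h)).card : ℝ) * Real.log p ≤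
        (C₁ * (Z / Real.log Z)) * (2 * (Real.log p / ((p : ℝ) - 1))) := by
      intro p hp
      have hpp := (smpP_mem.1 hp).2
      have hlogp : 0 ≤ Real.log p := Real.log_natCast_nonneg p
      have h1 : ∀ k ∈ Finset.Icc 1 (K p),
          ((Q.filter (fun q => p ^ k ∣ a * q + h)).card : ℝ) * Real.log p ≤
          (C₁ * (Z / Real.log Z)) * (Real.log p * (1 / (Nat.totient (p ^ k) : ℝ))) := by
        intro k hk
        rw [mem_Icc] at hk
        have hr1 : 1 ≤ p ^ k := Nat.one_le_pow _ _ hpp.pos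
        have h2 : (p ^ k) ^ 2 ≤ Z := by
          refine le_trans (Nat.pow_le_pow_left (Nat.pow_le_pow_right hpp.pos hk.2) 2) (hK1 p)
        have hφ : (0 : ℝ) < Nat.totient (p ^ k) := by exact_mod_cast Nat.totient_pos.2 hr1
        obtain ⟨c, hc⟩ : ∃ c : ℕ, (Q.filter (fun q => p ^ k ∣ a * q + h)) ⊆
            ((Finset.Icc 1 Z).filter (fun q => q.Prime ∧ q ≡ c [MOD p ^ k])) := by
          rcases (Q.filter (fun q => p ^ k ∣ a * q + h)).eq_empty_or_nonempty with he | ⟨c, hc⟩
          · exact ⟨0, by rw [he]; exact empty_subset _⟩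
          · refine ⟨c, fun q hq => ?_⟩
            rw [mem_filter, hQ, mem_filter] at hq
            rw [mem_filter]
            exact ⟨hq.1.1, hq.1.2, cls hco hq.2 (mem_filter.1 hc).2⟩
        have h3 := hbt (p ^ k) c Z hr1 hZ h2
        have h4 := card_le_card hc
        have h5 : ((Q.filter (fun q => p ^ k ∣ a * q + h)).card : ℝ) ≤
            C₁ * Z / ((Nat.totient (p ^ k) : ℝ) * Real.log Z) :=
          le_trans (by exact_mod_cast h4) h3
        calc ((Q.filter (fun q => p ^ k ∣ a * q + h)).card : ℝ) * Real.log p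
            ≤ (C₁ * Z / ((Nat.totient (p ^ k) : ℝ) * Real.log Z)) * Real.log p := by gcongr
          _ = (C₁ * (Z / Real.log Z)) * (Real.log p * (1 / (Nat.totient (p ^ k) : ℝ))) := by
              field_simp
      refine (sum_le_sum h1).trans ?_
      rw [← mul_sum, ← mul_sum]
      apply mul_le_mul_of_nonneg_left _ (by positivity)
      calc Real.log p * ∑ k ∈ Finset.Icc 1 (K p), 1 / (Nat.totient (p ^ k) : ℝ)
          ≤ Real.log p * (2 / ((p : ℝ) - 1)) := by
            apply mul_le_mul_of_nonneg_left (smp_phi hpp _) hlogp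
        _ = 2 * (Real.log p / ((p : ℝ) - 1)) := by ring
    have h5 := h0 y hy
    change ∑ p ∈ smpP y, Real.log p / ((p : ℝ) - 1) ≤ C₀ * (1 + Real.log y) at h5
    calc (Good.card : ℝ) * b ≤ ∑ p ∈ smpP y, ∑ k ∈ Finset.Icc 1 (K p),
          ((Q.filter (fun q => p ^ k ∣ a * q + h)).card : ℝ) * Real.log p := by
          rw [← e3]; exact e1.trans e2
      _ ≤ ∑ p ∈ smpP y, (C₁ * (Z / Real.log Z)) * (2 * (Real.log p / ((p : ℝ) - 1))) :=
          sum_le_sum e4
      _ = (C₁ * (Z / Real.log Z)) * (2 * ∑ p ∈ smpP y, Real.log p / ((p : ℝ) - 1)) := by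
          rw [← mul_sum, ← mul_sum]
      _ ≤ (C₁ * (Z / Real.log Z)) * (2 * (C₀ * (1 + Real.log y))) := by gcongr
      _ = 2 * C₁ * C₀ * (Z / Real.log Z) * (1 + Real.log y) := by ring
  have hsub : (Finset.Icc 1 Z).filter (fun q => q.Prime ∧ b ≤ Real.log (sp y (a * q + h))) ⊆
      Good ∪ Bad := by
    intro q hq
    rw [mem_filter] at hq
    rw [mem_union]
    by_cases hqb : q ∈ Bad
    · right; exact hqb
    · left
      rw [hGood, mem_filter, mem_sdiff, hQ, mem_filter]
      exact ⟨⟨⟨hq.1, hq.2.1⟩, hqb⟩, hq.2.2⟩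
  have hcard : (((Finset.Icc 1 Z).filter
      (fun q => q.Prime ∧ b ≤ Real.log (sp y (a * q + h)))).card : ℝ) ≤ Good.card + Bad.card := by
    have := (card_le_card hsub).trans (card_union_le _ _)
    exact_mod_cast this
  have hZl : 0 ≤ (Z : ℝ) / Real.log Z * (1 + Real.log y) := by positivity
  have hys : 0 ≤ b * y ^ 2 * Real.sqrt Z := by positivity
  have hC01 : 0 ≤ 2 * C₁ * C₀ := by positivity
  calc (((Finset.Icc 1 Z).filter
        (fun q => q.Prime ∧ b ≤ Real.log (sp y (a * q + h)))).card : ℝ) * b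
      ≤ (Good.card + Bad.card) * b := by gcongr
    _ = Good.card * b + Bad.card * b := by ring
    _ ≤ 2 * C₁ * C₀ * (Z / Real.log Z) * (1 + Real.log y) + (3 * y ^ 2 * Real.sqrt Z) * b := by
        gcongr
    _ ≤ (2 * C₁ * C₀ + 3) * (Z / Real.log Z) * (1 + Real.log y) +
        (2 * C₁ * C₀ + 3) * b * y ^ 2 * Real.sqrt Z := by
        nlinarith

end Pool.Agent.SGJ
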