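import Pool.Agent.SGJ.Cells
import Pool.Agent.SGJ.Smooth
import Pool.Agent.SGI.Main

set_option autoImplicit false

/-!
# Three composites: the exceptional integers
-/

namespace Pool.Agent.SGJ

open Finset Pool.Agent.SGI

/-- the structure of an exceptional integer -/
lemma classify {ε : ℝ} (hε : 0 < ε) {X z n : ℕ} (hX : 16 ≤ X) (hz2 : 2 ≤ z)
    (hz : (z : ℝ) * (2 * Real.log X) ≤ (X : ℝ) ^ (ε / 2)) (hL : 1 ≤ Real.log X)
    (hn : 2 ≤ n) (hnX : n ≤ X)
    (h : (X : ℝ) ^ (1 + ε) ≤ (gpf n : ℝ) * gpf (ff n))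
    (hp : n.Prime ∨ (ff n).Prime ∨ (ff (ff n)).Prime) :
    (∃ q : ℕ, z < q ∧ q ^ 2 ∣ n) ∨ n.Prime ∨
    ∃ m P : ℕ, n = m * P ∧ 2 ≤ m ∧ m ≤ X ∧ P.Prime ∧ z < P ∧ P ≤ X / m ∧ 1 ≤ P ∧
      (((m : ℝ) ≤ (X : ℝ) ^ (1 - ε / 2) ∧ (ArithmeticFunction.sigma 1 m * (P + 1) - 1).Prime ∧
        z < ArithmeticFunction.sigma 1 m * (P + 1) - 1) ∨
      (∃ b : ℕ, 2 ≤ b ∧ b ≤ X ∧ (m : ℝ) * b ≤ (X : ℝ) ^ (1 - ε / 2) ∧
        P ∈ TS (X / m) z (ArithmeticFunction.sigma 1 m) b (ArithmeticFunction.sigma 1 b)) ∨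
      (∃ q : ℕ, q.Prime ∧ (m : ℝ) * (X : ℝ) ^ ε ≤ q ∧ (q : ℝ) ^ 2 ≤ X * (1 + Real.log X) ∧
        q ^ 2 ∣ ArithmeticFunction.sigma 1 m * P + (ArithmeticFunction.sigma 1 m - 1))) := by
  by_cases hsq : ∃ q : ℕ, z < q ∧ q ^ 2 ∣ n
  · exact Or.inl hsq
  by_cases hpr : n.Prime
  · exact Or.inr (Or.inl hpr)
  refine Or.inr (Or.inr ?_)
  have hX0 : (0 : ℝ) < X := by exact_mod_cast (by omega : 0 < X)
  have hX1 : (1 : ℝ) ≤ X := by exact_mod_cast (by omega : 1 ≤ X)
  have hn1 : (1 : ℝ) ≤ n := by exact_mod_cast (by omega : 1 ≤ n)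
  have hn0 : (0 : ℝ) < n := by linarith
  have hnXr : (n : ℝ) ≤ X := by exact_mod_cast hnX
  obtain ⟨P, hPdef⟩ : ∃ P, P = gpf n := ⟨_, rfl⟩
  obtain ⟨N, hN⟩ : ∃ N, N = ff n := ⟨_, rfl⟩
  obtain ⟨Q, hQdef⟩ : ∃ Q, Q = gpf N := ⟨_, rfl⟩
  rw [← hPdef, ← hN, ← hQdef] at h
  have hnN : n ≤ N := hN ▸ le_ff hn
  have hN2 : 2 ≤ N := hn.trans hnN
  have hPp : P.Prime := hPdef ▸ gpf_prime hn
  have hQp : Q.Prime := hQdef ▸ gpf_prime hN2
  have hPn : P ∣ n := hPdef ▸ gpf_dvd hn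
  have hQN : Q ∣ N := hQdef ▸ gpf_dvd hN2
  obtain ⟨m, hm⟩ := hPn
  obtain ⟨b, hb⟩ := hQN
  have hP0 : (0 : ℝ) < P := by exact_mod_cast hPp.pos
  have hQ0 : (0 : ℝ) < Q := by exact_mod_cast hQp.pos
  have hm1 : 1 ≤ m := by
    rcases Nat.eq_zero_or_pos m with h0 | h0
    · rw [h0] at hm; omega
    · exact h0
  have hb1 : 1 ≤ b := by
    rcases Nat.eq_zero_or_pos b with h0 | h0
    · rw [h0] at hb; omega
    · exact h0
  have hm2 : 2 ≤ m := by
    by_contra hc
    have : m = 1 := by omega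
    rw [this, mul_one] at hm
    exact hpr (hm ▸ hPp)
  have hm0 : (0 : ℝ) < m := by exact_mod_cast (by omega : 0 < m)
  have hb0 : (0 : ℝ) < b := by exact_mod_cast (by omega : 0 < b)
  have hm1r : (1 : ℝ) ≤ m := by exact_mod_cast hm1
  have hb1r : (1 : ℝ) ≤ b := by exact_mod_cast hb1
  have hPX : P ≤ X / m := by
    rw [Nat.le_div_iff_mul_le (by omega)]
    rw [← hm]
    exact hnX
  have hmP : (m : ℝ) * P ≤ X := by
    have : m * P ≤ X := by
      rw [mul_comm, ← hm]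
      exact hnX
    exact_mod_cast this
  have hNle : (N : ℝ) ≤ X * (1 + Real.log X) := by
    have h1 := sigma_le n (by omega)
    have h2 : (N : ℝ) ≤ ArithmeticFunction.sigma 1 n := by
      rw [← ff_succ (by omega : 1 ≤ n), ← hN]
      push_cast
      linarith
    refine h2.trans (h1.trans ?_)
    have h3 : Real.log n ≤ Real.log X := Real.log_le_log hn0 hnXr
    have h4 : 0 ≤ Real.log n := Real.log_nonneg hn1
    apply mul_le_mul hnXr (by linarith) (by linarith) hX0.le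
  have hXe : (X : ℝ) ^ (1 + ε) = X * (X : ℝ) ^ ε := by
    rw [Real.rpow_add hX0, Real.rpow_one]
  have hXe0 : 0 < (X : ℝ) ^ ε := by positivity
  have hXh0 : 0 < (X : ℝ) ^ (ε / 2) := by positivity
  have hXeh : (X : ℝ) ^ ε = (X : ℝ) ^ (ε / 2) * (X : ℝ) ^ (ε / 2) := by
    rw [← Real.rpow_add hX0]
    congr 1
    ring
  have hz0 : (2 : ℝ) ≤ z := by exact_mod_cast hz2
  have hXh : 4 ≤ (X : ℝ) ^ (ε / 2) := by nlinarith
  have h2L : 1 + Real.log X ≤ 2 * Real.log X := by linarith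
  have h2Lz : 2 * Real.log X ≤ (X : ℝ) ^ (ε / 2) := by nlinarith
  -- `Q ≥ m X^ε`
  have hQm : (m : ℝ) * (X : ℝ) ^ ε ≤ Q := by
    have h1 : (m * (X : ℝ) ^ ε) * (X : ℝ) ≤ Q * X := by
      calc (m * (X : ℝ) ^ ε) * (X : ℝ) = m * (X : ℝ) ^ (1 + ε) := by rw [hXe]; ring
        _ ≤ m * (P * Q) := by gcongr
        _ = (m * P) * Q := by ring
        _ ≤ X * Q := by gcongr
        _ = Q * X := by ring
    exact le_of_mul_le_mul_right h1 hX0
  have hQz : z < Q := by
    have h1 : (z : ℝ) < Q := by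
      have h2 : (z : ℝ) * 2 ≤ (z : ℝ) * (2 * Real.log X) := by
        apply mul_le_mul_of_nonneg_left (by linarith) (by linarith)
      calc (z : ℝ) < 1 * ((z : ℝ) * 2 * 4) := by linarith
        _ ≤ m * ((X : ℝ) ^ (ε / 2) * (X : ℝ) ^ (ε / 2)) := by
            apply mul_le_mul hm1r _ (by positivity) hm0.le
            exact mul_le_mul (h2.trans hz) hXh (by norm_num) hXh0.le
        _ = m * (X : ℝ) ^ ε := by rw [hXeh]
        _ ≤ Q := hQm
    exact_mod_cast h1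
  -- `P > z`
  have hPz : z < P := by
    have h1 : (z : ℝ) < P := by
      by_contra hc
      push Not at hc
      have h2 : (Q : ℝ) ≤ N := by exact_mod_cast hQdef ▸ gpf_le hN2
      have h3 : (X : ℝ) * (X : ℝ) ^ ε ≤ z * (X * (1 + Real.log X)) := by
        rw [← hXe]
        refine h.trans ?_
        apply mul_le_mul hc (h2.trans hNle) hQ0.le (by linarith)
      have h4 : (X : ℝ) * (X : ℝ) ^ ε ≤ X * (X : ℝ) ^ (ε / 2) := by
        refine h3.trans ?_
        calc (z : ℝ) * (X * (1 + Real.log X)) ≤ z * (X * (2 * Real.log X)) := by gcongr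
          _ = X * (z * (2 * Real.log X)) := by ring
          _ ≤ X * (X : ℝ) ^ (ε / 2) := by gcongr
      have h5 := le_of_mul_le_mul_left h4 hX0
      rw [hXeh] at h5
      nlinarith
    exact_mod_cast h1
  have hPm : ¬ P ∣ m := by
    rintro ⟨k, hk⟩
    apply hsq
    refine ⟨P, hPz, k, ?_⟩
    rw [hm, hk]
    ring
  have hmX : m ≤ X := by
    have h1 : m ≤ n := by
      rw [hm]
      exact Nat.le_mul_of_pos_left _ hPp.pos
    omega
  have hmb : (m : ℝ) * b ≤ (X : ℝ) ^ (1 - ε / 2) := by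
    have h1 : (m : ℝ) * b * (X * (X : ℝ) ^ ε) ≤ X * (X * (1 + Real.log X)) := by
      calc (m : ℝ) * b * (X * (X : ℝ) ^ ε) = (m : ℝ) * b * (X : ℝ) ^ (1 + ε) := by rw [hXe]
        _ ≤ (m : ℝ) * b * (P * Q) := by gcongr
        _ = (m * P) * (Q * b) := by ring
        _ ≤ X * (X * (1 + Real.log X)) := by
            have h2 : (Q : ℝ) * b = N := by rw [hb]; push_cast; ring
            rw [h2]
            gcongr
    have h2 : (m : ℝ) * b * (X : ℝ) ^ ε ≤ X * (1 + Real.log X) := by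
      have h3 : ((m : ℝ) * b * (X : ℝ) ^ ε) * X ≤ (X * (1 + Real.log X)) * X := by
        calc ((m : ℝ) * b * (X : ℝ) ^ ε) * X = (m : ℝ) * b * (X * (X : ℝ) ^ ε) := by ring
          _ ≤ _ := h1
          _ = (X * (1 + Real.log X)) * X := by ring
      exact le_of_mul_le_mul_right h3 hX0
    have h3 : (X : ℝ) ^ (1 - ε / 2) * (X : ℝ) ^ ε = X * (X : ℝ) ^ (ε / 2) := by
      rw [← Real.rpow_add hX0, show 1 - ε / 2 + ε = 1 + ε / 2 by ring, Real.rpow_add hX0,
        Real.rpow_one]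
    have h4 : (m : ℝ) * b * (X : ℝ) ^ ε ≤ (X : ℝ) ^ (1 - ε / 2) * (X : ℝ) ^ ε := by
      rw [h3]
      refine h2.trans ?_
      gcongr
      linarith
    exact le_of_mul_le_mul_right h4 hXe0
  have hσ : N + 1 = ArithmeticFunction.sigma 1 m * (P + 1) := by
    rw [hN, ff_succ (by omega : 1 ≤ n), hm, mul_comm P m, sigma_mul hPp hPm]
  have ha := sigma_ge hm2
  have hbN : b ≤ X := by
    have h1 : (b : ℝ) ≤ X := by
      calc (b : ℝ) ≤ m * b := by nlinarith
        _ ≤ (X : ℝ) ^ (1 - ε / 2) := hmb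
        _ ≤ (X : ℝ) ^ (1 : ℝ) := Real.rpow_le_rpow_of_exponent_le hX1 (by linarith)
        _ = X := Real.rpow_one _
    exact_mod_cast h1
  refine ⟨m, P, by rw [hm, mul_comm], hm2, hmX, hPp, hPz, hPX, hPp.one_le, ?_⟩
  have hQN' : Q ≤ N := hQdef ▸ gpf_le hN2
  rcases Nat.lt_or_ge b 2 with hb2 | hb2
  · -- `N = Q` is prime
    left
    have hb' : b = 1 := by omega
    rw [hb', mul_one] at hb
    refine ⟨?_, ?_, ?_⟩
    · calc (m : ℝ) ≤ m * b := by nlinarith
        _ ≤ _ := hmb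
    · rw [← hσ, Nat.add_sub_cancel, hb]
      exact hQp
    · rw [← hσ, Nat.add_sub_cancel]
      omega
  · right
    have hNnp : ¬ N.Prime := by
      intro hc
      have h1 := (Nat.dvd_prime hc).1 ⟨b, hb⟩
      rcases h1 with h1 | h1
      · exact hQp.one_lt.ne' h1
      · rw [h1] at hb
        have : b = 1 := by
          have h2 : N * b = N * 1 := by omega
          exact Nat.eq_of_mul_eq_mul_left (by omega) h2
        omega
    have hpp : (ff N).Prime := by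
      rcases hp with h1 | h1 | h1
      · exact absurd h1 hpr
      · exact absurd (hN ▸ h1) hNnp
      · rw [← hN] at h1
        exact h1
    by_cases hQb : Q ∣ b
    · right
      obtain ⟨k, hk⟩ := hQb
      refine ⟨Q, hQp, hQm, ?_, ?_⟩
      · have h1 : Q ^ 2 ≤ N := by
          apply Nat.le_of_dvd (by omega)
          refine ⟨k, ?_⟩
          rw [hb, hk]
          ring
        have h2 : ((Q ^ 2 : ℕ) : ℝ) ≤ N := by exact_mod_cast h1
        push_cast at h2
        linarith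
      · refine ⟨k, ?_⟩
        have h1 : ArithmeticFunction.sigma 1 m * P + (ArithmeticFunction.sigma 1 m - 1) = N := by
          have : ArithmeticFunction.sigma 1 m * (P + 1) =
            ArithmeticFunction.sigma 1 m * P + ArithmeticFunction.sigma 1 m := by ring
          omega
        rw [h1, hb, hk]
        ring
    · left
      refine ⟨b, hb2, hbN, hmb, hPp.one_le, hPX, hPp, hPz, Q, hQp, hQz, ?_, ?_, ?_⟩
      · rw [← hσ, hb]
        ring
      · have h1 : ff N + 1 = ArithmeticFunction.sigma 1 b * (Q + 1) := by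
          rw [ff_succ (by omega : 1 ≤ N), hb, mul_comm Q b, sigma_mul hQp hQb]
        rw [← h1, Nat.add_sub_cancel]
        exact hpp
      · have h1 : ff N + 1 = ArithmeticFunction.sigma 1 b * (Q + 1) := by
          rw [ff_succ (by omega : 1 ≤ N), hb, mul_comm Q b, sigma_mul hQp hQb]
        rw [← h1, Nat.add_sub_cancel]
        have := le_ff hN2
        omega

end Pool.Agent.SGJ
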