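import Pool.Agent.HP.SVG
import Pool.Agent.HP.DEL

set_option autoImplicit false

/-!
# Upper bound sieve for `k` linear forms in one variable
-/

namespace Pool.Agent.SGJ

open Finset

/-- number of `t < T` in a residue class -/
lemma count_class (T d r : ℕ) (hd : 1 ≤ d) :
    |(((range T).filter (fun t => t ≡ r [MOD d])).card : ℝ) - T / d| ≤ 1 := by
  have h1 : ((range T).filter (fun t => t ≡ r [MOD d])).card = T.count (· ≡ r [MOD d]) := by
    rw [Nat.count_eq_card_filter_range]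
  have h2 := Nat.count_modEq_card_eq_ceil (r := d) T (by omega) r
  have h3 : (((range T).filter (fun t => t ≡ r [MOD d])).card : ℝ) =
      ((⌈((T : ℚ) - (r % d : ℕ)) / (d : ℚ)⌉ : ℤ) : ℝ) := by
    rw [h1]
    exact_mod_cast h2
  rw [h3]
  have hdq : (0 : ℚ) < d := by exact_mod_cast hd
  have hdr : (0 : ℝ) < d := by exact_mod_cast hd
  have h4 := Int.le_ceil (((T : ℚ) - (r % d : ℕ)) / (d : ℚ))
  have h5 := Int.ceil_lt_add_one (((T : ℚ) - (r % d : ℕ)) / (d : ℚ))
  set c : ℤ := ⌈((T : ℚ) - (r % d : ℕ)) / (d : ℚ)⌉ with hc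
  have h6 : ((T : ℝ) - (r % d : ℕ)) / (d : ℝ) ≤ (c : ℝ) := by exact_mod_cast h4
  have h7 : (c : ℝ) < ((T : ℝ) - (r % d : ℕ)) / (d : ℝ) + 1 := by exact_mod_cast h5
  have h8 : ((r % d : ℕ) : ℝ) / d < 1 := by
    rw [div_lt_one hdr]
    exact_mod_cast Nat.mod_lt r (by omega)
  have h9 : 0 ≤ ((r % d : ℕ) : ℝ) / d := by positivity
  rw [sub_div] at h6 h7
  rw [abs_le]
  constructor <;> linarith

/-- the forbidden classes -/
def VL {k : ℕ} (α γ : Fin k → ℕ) (p : ℕ) (x : Fin 1 → ZMod p) : Prop :=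
  ∃ i, (α i : ZMod p) * x 0 + (γ i : ZMod p) = 0

open scoped Classical in
lemma cV_eq {k : ℕ} (α γ : Fin k → ℕ) (p : ℕ) (hp : p.Prime)
    (h1 : ∀ i, ¬ p ∣ α i) (h2 : ∀ i j, i ≠ j → ¬ (p : ℤ) ∣ (α i : ℤ) * γ j - α j * γ i) :
    HP.cV (VL α γ) p = k := by
  have := Fact.mk hp
  have hne : ∀ i, (α i : ZMod p) ≠ 0 := fun i h0 => h1 i ((ZMod.natCast_eq_zero_iff _ _).1 h0)
  -- the root of the form `i`
  let g : Fin k → (Fin 1 → ℕ) := fun i _ => (-(γ i : ZMod p) * (α i : ZMod p)⁻¹).val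
  have hg : Function.Injective g := by
    intro i j hij
    by_contra hne'
    apply h2 i j hne'
    have h3 : (-(γ i : ZMod p) * (α i : ZMod p)⁻¹) = (-(γ j : ZMod p) * (α j : ZMod p)⁻¹) := by
      have := congrFun hij 0
      exact ZMod.val_injective p this
    have h4 : (α i : ZMod p) * γ j - α j * γ i = 0 := by
      have hi := hne i
      have hj := hne j
      field_simp at h3
      linear_combination h3
    have h5 : (((α i : ℤ) * γ j - α j * γ i : ℤ) : ZMod p) = 0 := by
      push_cast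
      exact h4
    exact (ZMod.intCast_zmod_eq_zero_iff_dvd _ p).1 h5
  have hset : (Fintype.piFinset (fun _ : Fin 1 => Finset.range p)).filter
      (fun r => VL α γ p (fun i => (r i : ZMod p))) = Finset.univ.image g := by
    ext r
    rw [mem_filter, Fintype.mem_piFinset, mem_image]
    constructor
    · rintro ⟨hr, i, hi⟩
      refine ⟨i, mem_univ _, ?_⟩
      funext j
      have hj : j = 0 := Subsingleton.elim _ _
      subst hj
      have h3 : ((r 0 : ℕ) : ZMod p) = -(γ i : ZMod p) * (α i : ZMod p)⁻¹ := by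
        have hi' := hne i
        field_simp
        linear_combination hi
      change (-(γ i : ZMod p) * (α i : ZMod p)⁻¹).val = r 0
      rw [← h3, ZMod.val_natCast, Nat.mod_eq_of_lt (mem_range.1 (hr 0))]
    · rintro ⟨i, -, rfl⟩
      refine ⟨fun j => mem_range.2 (ZMod.val_lt _), i, ?_⟩
      change (α i : ZMod p) * (((-(γ i : ZMod p) * (α i : ZMod p)⁻¹).val : ℕ) : ZMod p) +
        (γ i : ZMod p) = 0
      rw [ZMod.natCast_zmod_val]
      have hi' := hne i
      field_simp
      ring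
  unfold HP.cV
  have h6 : ((Fintype.piFinset (fun _ : Fin 1 => Finset.range p)).filter
      (fun r => VL α γ p (fun i => (r i : ZMod p)))).card = k := by
    rw [hset, card_image_of_injective _ hg, card_univ, Fintype.card_fin]
  exact h6

/-- **The sieve for `k` linear forms.** -/
theorem lin_sieve (k : ℕ) (hk : 1 ≤ k) : ∃ C : ℝ, 0 < C ∧ ∀ (T z Δ : ℕ) (α γ : Fin k → ℕ),
    2 ≤ z → 1 ≤ Δ →
    (∀ p : ℕ, p.Prime → ¬ p ∣ Δ → (∀ i, ¬ p ∣ α i) ∧
      ∀ i j, i ≠ j → ¬ (p : ℤ) ∣ (α i : ℤ) * γ j - α j * γ i) →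
    (((range T).filter (fun t => ∀ i, (α i * t + γ i).Prime ∧ z < α i * t + γ i)).card : ℝ) ≤
      C * T * (∏ p ∈ Δ.primeFactors, (1 + (k : ℝ) / p)) / Real.log z ^ k + (z : ℝ) ^ 6 := by
  classical
  obtain ⟨C, hC, h⟩ := HP.svg 1 k hk
  refine ⟨C, hC, fun T z Δ α γ hz hΔ hp => ?_⟩
  let e : ℕ → (Fin 1 → ℕ) := fun t _ => t
  have he : Function.Injective e := fun a b hab => congrFun hab 0
  have h1 := h ((range T).image e) z Δ T 1 (VL α γ) hz hΔ (by positivity) (by norm_num)
    (by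
      intro p hpp hpk _ hpd
      obtain ⟨h2, h3⟩ := hp p hpp hpd
      rw [cV_eq α γ p hpp h2 h3, pow_one]
      have hp0 : (0 : ℝ) < p := by exact_mod_cast hpp.pos
      refine ⟨?_, le_refl _, ?_⟩
      · have : (0 : ℝ) ≤ (k : ℝ) ^ 2 / (2 * (p : ℝ) ^ 2) := by positivity
        linarith
      · apply div_le_div_of_nonneg_right _ hp0.le
        exact_mod_cast hk)
    (by
      intro d hd _ _ r
      rw [pow_one]
      have h2 : ((range T).image e).filter (fun x => ∀ i, x i ≡ r i [MOD d]) =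
          ((range T).filter (fun t => t ≡ r 0 [MOD d])).image e := by
        ext x
        simp only [mem_filter, mem_image]
        constructor
        · rintro ⟨⟨t, ht, rfl⟩, h3⟩
          exact ⟨t, ⟨ht, h3 0⟩, rfl⟩
        · rintro ⟨t, ⟨ht, h3⟩, rfl⟩
          refine ⟨⟨t, ht, rfl⟩, fun i => ?_⟩
          have hi : i = 0 := Subsingleton.elim _ _
          subst hi
          exact h3
      rw [h2, card_image_of_injective _ he]
      exact count_class T d (r 0) hd)
  have h4 : (((range T).filter (fun t => ∀ i, (α i * t + γ i).Prime ∧ z < α i * t + γ i)).card : ℝ) ≤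
      ((((range T).image e).filter (fun x => ∀ p : ℕ, p.Prime → k ^ 4 < p → p ≤ z → ¬ p ∣ Δ →
      ¬ VL α γ p (fun i => (x i : ZMod p)))).card : ℝ) := by
    have h5 : ((range T).filter (fun t => ∀ i, (α i * t + γ i).Prime ∧ z < α i * t + γ i)).image e ⊆
        (((range T).image e).filter (fun x => ∀ p : ℕ, p.Prime → k ^ 4 < p → p ≤ z → ¬ p ∣ Δ →
        ¬ VL α γ p (fun i => (x i : ZMod p)))) := by
      intro x hx
      rw [mem_image] at hx
      obtain ⟨t, ht, rfl⟩ := hx
      rw [mem_filter] at ht ⊢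
      refine ⟨mem_image_of_mem _ ht.1, ?_⟩
      rintro p hpp - hpz - ⟨i, hi⟩
      obtain ⟨h6, h7⟩ := ht.2 i
      have h8 : ((α i * t + γ i : ℕ) : ZMod p) = 0 := by
        push_cast
        exact hi
      have h9 := (ZMod.natCast_eq_zero_iff _ _).1 h8
      have h10 := (Nat.prime_dvd_prime_iff_eq hpp h6).1 h9
      omega
    have h6 := card_le_card h5
    rw [card_image_of_injective _ he] at h6
    exact_mod_cast h6
  refine h4.trans (h1.trans ?_)
  norm_num

end Pool.Agent.SGJ
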