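import Pool.Agent.SGJ.Sieve
import Pool.Agent.SGJ.Smooth

set_option autoImplicit false

/-!
# Primes `P`, `Q = (a (P+1) - 1)/b`, `β (Q+1) - 1`
-/

namespace Pool.Agent.SGJ

open Finset

/-- the bad primes of the triple of forms -/
def DT (a b β : ℕ) : ℕ := a * b * β * (a - 1) * (β - 1) * (β * (a + b - 1) - b)

lemma DT_pos {a b β : ℕ} (ha : 2 ≤ a) (hb : 1 ≤ b) (hβ : 2 ≤ β) : 1 ≤ DT a b β := by
  unfold DT
  have h1 : 1 ≤ β * (a + b - 1) - b := by
    have : 2 * (b + 1) ≤ β * (a + b - 1) := Nat.mul_le_mul hβ (by omega)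
    omega
  have h2 : 1 ≤ a - 1 := by omega
  have h3 : 1 ≤ β - 1 := by omega
  have h4 : 1 ≤ a * b * β := Nat.mul_pos (Nat.mul_pos (by omega) hb) (by omega)
  exact Nat.mul_pos (Nat.mul_pos (Nat.mul_pos h4 h2) h3) h1

/-- one solution determines the residue class of `P` modulo `b` and the constant terms -/
lemma param {a b P₀ Q₀ P Q : ℕ} (hb : 1 ≤ b) (h0 : b * Q₀ + 1 = a * (P₀ + 1))
    (h : b * Q + 1 = a * (P + 1)) :
    ∃ t : ℕ, P = b * t + P₀ % b ∧ Q = a * t + (Q₀ - a * (P₀ / b)) ∧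
      b * (Q₀ - a * (P₀ / b)) + 1 = a * (P₀ % b + 1) ∧ t = P / b := by
  have hP0 := Nat.div_add_mod P₀ b
  have hle : a * (P₀ / b) ≤ Q₀ := by
    by_contra hc
    push Not at hc
    have h1 : b * (Q₀ + 1) ≤ b * (a * (P₀ / b)) := Nat.mul_le_mul_left _ hc
    have h2 : b * (a * (P₀ / b)) = a * (b * (P₀ / b)) := by ring
    have h3 : a * (b * (P₀ / b)) + a * (P₀ % b + 1) = b * Q₀ + 1 := by
      rw [h0, ← hP0]
      have : (b * (P₀ / b) + P₀ % b) / b = P₀ / b := by rw [hP0]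
      have h4 : (b * (P₀ / b) + P₀ % b) % b = P₀ % b := by rw [hP0]
      rw [this, h4]
      ring
    have h4 : a ≠ 0 := by
      rintro rfl
      simp at h0
    have h5 : 1 ≤ a * (P₀ % b + 1) := Nat.mul_pos (by omega) (by omega)
    have h6 : b * (Q₀ + 1) = b * Q₀ + b := by ring
    omega
  have hc : b * (Q₀ - a * (P₀ / b)) + 1 = a * (P₀ % b + 1) := by
    have h1 : b * (Q₀ - a * (P₀ / b)) + b * (a * (P₀ / b)) = b * Q₀ := by
      rw [← Nat.mul_add, Nat.sub_add_cancel hle]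
    have h2 : a * (P₀ + 1) = b * (a * (P₀ / b)) + a * (P₀ % b + 1) := by
      calc a * (P₀ + 1) = a * (b * (P₀ / b) + P₀ % b + 1) := by rw [hP0]
        _ = _ := by ring
    omega
  -- `P ≡ P₀ mod b`
  have hab : Nat.Coprime a b := by
    have h1 : Nat.gcd a b ∣ b * Q₀ + 1 := by
      rw [h0]
      exact (Nat.gcd_dvd_left a b).mul_right _
    have h2 : Nat.gcd a b ∣ b * Q₀ := (Nat.gcd_dvd_right a b).mul_right _
    exact Nat.dvd_one.1 ((Nat.dvd_add_right h2).1 h1)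
  have hcong : P ≡ P₀ [MOD b] := by
    have h1 : a * (P + 1) ≡ a * (P₀ + 1) [MOD b] := by
      rw [← h, ← h0]
      have h2 : b * Q ≡ b * Q₀ [MOD b] :=
        (Nat.modEq_zero_iff_dvd.2 (dvd_mul_right _ _)).trans
          (Nat.modEq_zero_iff_dvd.2 (dvd_mul_right _ _)).symm
      exact h2.add_right 1
    have h2 := Nat.ModEq.cancel_left_of_coprime (by rw [Nat.gcd_comm]; exact hab) h1
    exact Nat.ModEq.add_right_cancel' 1 h2
  have hP : P = b * (P / b) + P₀ % b := by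
    have h1 := Nat.div_add_mod P b
    rw [show P % b = P₀ % b from hcong] at h1
    exact h1.symm
  refine ⟨P / b, hP, ?_, hc, rfl⟩
  have h1 : b * Q + 1 = b * (a * (P / b) + (Q₀ - a * (P₀ / b))) + 1 := by
    calc b * Q + 1 = a * (P + 1) := h
      _ = a * (b * (P / b) + P₀ % b + 1) := by rw [← hP]
      _ = b * (a * (P / b)) + a * (P₀ % b + 1) := by ring
      _ = b * (a * (P / b)) + (b * (Q₀ - a * (P₀ / b)) + 1) := by rw [hc]
      _ = _ := by ring
  exact Nat.eq_of_mul_eq_mul_left hb (by omega)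

lemma dets {a b β r c p : ℕ} (hp : p.Prime) (ha : 2 ≤ a) (hb : 1 ≤ b) (hβ : 2 ≤ β)
    (hc : b * c + 1 = a * (r + 1)) (h : ¬ p ∣ DT a b β) :
    (∀ i : Fin 3, ¬ p ∣ (![b, a, β * a] : Fin 3 → ℕ) i) ∧
      ∀ i j : Fin 3, i ≠ j → ¬ (p : ℤ) ∣ ((![b, a, β * a] : Fin 3 → ℕ) i : ℤ) *
        (![r, c, β * (c + 1) - 1] : Fin 3 → ℕ) j -
        ((![b, a, β * a] : Fin 3 → ℕ) j : ℤ) * (![r, c, β * (c + 1) - 1] : Fin 3 → ℕ) i := by
  unfold DT at h
  have h6 : ¬ p ∣ β * (a + b - 1) - b := fun h' => h (h'.mul_left _)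
  have h5 : ¬ p ∣ β - 1 := fun h' => h ((h'.mul_left _).mul_right _)
  have h4 : ¬ p ∣ a - 1 := fun h' => h (((h'.mul_left _).mul_right _).mul_right _)
  have h3 : ¬ p ∣ β := fun h' => h ((((h'.mul_left _).mul_right _).mul_right _).mul_right _)
  have h2 : ¬ p ∣ b := fun h' => h (((((h'.mul_left _).mul_right _).mul_right _).mul_right _).mul_right _)
  have h1 : ¬ p ∣ a := fun h' => h (((((h'.mul_right _).mul_right _).mul_right _).mul_right _).mul_right _)
  have hc' : (b : ℤ) * c + 1 = a * (r + 1) := by exact_mod_cast hc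
  have e1 : ((a - 1 : ℕ) : ℤ) = a - 1 := by push_cast [Nat.cast_sub (show 1 ≤ a by omega)]; ring
  have e2 : ((β - 1 : ℕ) : ℤ) = β - 1 := by push_cast [Nat.cast_sub (show 1 ≤ β by omega)]; ring
  have hle : b ≤ β * (a + b - 1) := by
    have : 2 * (b + 1) ≤ β * (a + b - 1) := Nat.mul_le_mul hβ (by omega)
    omega
  have e3 : ((β * (a + b - 1) - b : ℕ) : ℤ) = β * (a + b - 1) - b := by
    rw [Nat.cast_sub hle, Nat.cast_mul, Nat.cast_sub (show 1 ≤ a + b by omega)]
    push_cast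
    ring
  have hβc : 1 ≤ β * (c + 1) := Nat.mul_pos (by omega) (by omega)
  have e4 : ((β * (c + 1) - 1 : ℕ) : ℤ) = β * (c + 1) - 1 := by
    rw [Nat.cast_sub hβc]
    push_cast
    ring
  have k1 : ¬ (p : ℤ) ∣ (a : ℤ) - 1 := by
    rw [← e1]
    intro h'
    exact h4 (Int.natCast_dvd_natCast.1 h')
  have k2 : ¬ (p : ℤ) ∣ (β : ℤ) * (a + b - 1) - b := by
    rw [← e3]
    intro h'
    exact h6 (Int.natCast_dvd_natCast.1 h')
  have k3 : ¬ (p : ℤ) ∣ (a : ℤ) * (β - 1) := by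
    rw [← e2, ← Nat.cast_mul]
    intro h'
    rcases (hp.dvd_mul).1 (Int.natCast_dvd_natCast.1 h') with h7 | h7
    · exact h1 h7
    · exact h5 h7
  have f01 : (b : ℤ) * c - a * r = a - 1 := by linear_combination hc'
  have f02 : (b : ℤ) * (β * (c + 1) - 1) - β * a * r = β * (a + b - 1) - b := by
    linear_combination (β : ℤ) * hc'
  have f12 : (a : ℤ) * (β * (c + 1) - 1) - β * a * c = a * (β - 1) := by ring
  constructor
  · intro i
    fin_cases i
    · exact h2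
    · exact h1
    · change ¬ p ∣ β * a
      intro h'
      rcases (hp.dvd_mul).1 h' with h7 | h7
      · exact h3 h7
      · exact h1 h7
  · intro i j hij
    fin_cases i <;> fin_cases j
    · exact absurd rfl hij
    · change ¬ (p : ℤ) ∣ (b : ℤ) * (c : ℤ) - a * r
      rw [f01]; exact k1
    · change ¬ (p : ℤ) ∣ (b : ℤ) * ((β * (c + 1) - 1 : ℕ) : ℤ) - ((β * a : ℕ) : ℤ) * r
      rw [e4, Nat.cast_mul, f02]; exact k2
    · change ¬ (p : ℤ) ∣ (a : ℤ) * (r : ℤ) - b * c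
      rw [show (a : ℤ) * r - b * c = -(a - 1) by linear_combination -f01, dvd_neg]
      exact k1
    · exact absurd rfl hij
    · change ¬ (p : ℤ) ∣ (a : ℤ) * ((β * (c + 1) - 1 : ℕ) : ℤ) - ((β * a : ℕ) : ℤ) * c
      rw [e4, Nat.cast_mul, f12]; exact k3
    · change ¬ (p : ℤ) ∣ ((β * a : ℕ) : ℤ) * r - (b : ℤ) * ((β * (c + 1) - 1 : ℕ) : ℤ)
      rw [e4, Nat.cast_mul,
        show (β : ℤ) * a * r - b * (β * (c + 1) - 1) = -(β * (a + b - 1) - b) by
          linear_combination -f02, dvd_neg]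
      exact k2
    · change ¬ (p : ℤ) ∣ ((β * a : ℕ) : ℤ) * c - (a : ℤ) * ((β * (c + 1) - 1 : ℕ) : ℤ)
      rw [e4, Nat.cast_mul,
        show (β : ℤ) * a * c - a * (β * (c + 1) - 1) = -(a * (β - 1)) by
          linear_combination -f12, dvd_neg]
      exact k3
    · exact absurd rfl hij

/-- the set of the primes `P ≤ Y` of the triple -/
def TS (Y z a b β : ℕ) : Set ℕ := {P | 1 ≤ P ∧ P ≤ Y ∧ P.Prime ∧ z < P ∧ ∃ Q : ℕ, Q.Prime ∧ z < Q ∧
  b * Q + 1 = a * (P + 1) ∧ (β * (Q + 1) - 1).Prime ∧ z < β * (Q + 1) - 1}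

open scoped Classical in
theorem triple : ∃ C : ℝ, 0 < C ∧ ∀ Y z a b β : ℕ, 2 ≤ z → 2 ≤ a → 1 ≤ b → 2 ≤ β →
    (((Icc 1 Y).filter (fun P => P ∈ TS Y z a b β)).card : ℝ) ≤
      C * (Y / b + 1 : ℕ) * (∏ p ∈ (DT a b β).primeFactors, (1 + (3 : ℝ) / p)) / Real.log z ^ 3 +
        (z : ℝ) ^ 6 := by
  obtain ⟨C, hC, h⟩ := lin_sieve 3 (by norm_num)
  refine ⟨C, hC, fun Y z a b β hz ha hb hβ => ?_⟩
  rcases ((Icc 1 Y).filter (fun P => P ∈ TS Y z a b β)).eq_empty_or_nonempty with he | ⟨P₀, hP₀⟩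
  · rw [he, card_empty, Nat.cast_zero]
    have h1 : 0 < Real.log z := Real.log_pos (by exact_mod_cast (by omega : 1 < z))
    positivity
  obtain ⟨-, -, -, -, -, Q₀, -, -, h0, -, -⟩ := mem_filter.1 hP₀
  set r := P₀ % b with hr
  set c := Q₀ - a * (P₀ / b) with hc
  have hrc : b * c + 1 = a * (r + 1) := by
    obtain ⟨_, _, _, h3, _⟩ := param hb h0 h0
    exact h3
  have h1 := h (Y / b + 1) z (DT a b β) ![b, a, β * a] ![r, c, β * (c + 1) - 1] hz (DT_pos ha hb hβ)
    (fun p hp hpd => dets hp ha hb hβ hrc hpd)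
  refine le_trans ?_ (h1.trans (le_of_eq ?_))
  · have h2 : ((Icc 1 Y).filter (fun P => P ∈ TS Y z a b β)).card ≤
        ((range (Y / b + 1)).filter (fun t => ∀ i : Fin 3,
          ((![b, a, β * a] : Fin 3 → ℕ) i * t + (![r, c, β * (c + 1) - 1] : Fin 3 → ℕ) i).Prime ∧
          z < (![b, a, β * a] : Fin 3 → ℕ) i * t +
            (![r, c, β * (c + 1) - 1] : Fin 3 → ℕ) i)).card := by
      apply card_le_card_of_injOn (fun P => P / b)
      · intro P hP
        rw [mem_coe, mem_filter] at hP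
        obtain ⟨hPI, -, hPY, hPp, hPz, Q, hQp, hQz, hPQ, hRp, hRz⟩ := hP
        obtain ⟨t, h3, h4, -, h5⟩ := param hb h0 hPQ
        rw [mem_coe, mem_filter, mem_range]
        simp only
        rw [← h5]
        constructor
        · rw [h5]
          exact Nat.lt_succ_of_le (Nat.div_le_div_right hPY)
        · intro i
          fin_cases i
          · change (b * t + r).Prime ∧ z < b * t + r
            rw [← h3]
            exact ⟨hPp, hPz⟩
          · change (a * t + c).Prime ∧ z < a * t + c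
            rw [← h4]
            exact ⟨hQp, hQz⟩
          · change (β * a * t + (β * (c + 1) - 1)).Prime ∧ z < β * a * t + (β * (c + 1) - 1)
            have h6 : β * (Q + 1) - 1 = β * a * t + (β * (c + 1) - 1) := by
              have h7 : 1 ≤ β * (c + 1) := Nat.mul_pos (by omega) (by omega)
              have h8 : β * (Q + 1) = β * a * t + β * (c + 1) := by
                rw [h4]; ring
              omega
            rw [← h6]
            exact ⟨hRp, hRz⟩
      · intro P hP P' hP' he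
        rw [mem_coe, mem_filter] at hP hP'
        obtain ⟨-, -, -, -, -, Q, -, -, hPQ, -, -⟩ := hP
        obtain ⟨-, -, -, -, -, Q', -, -, hPQ', -, -⟩ := hP'
        obtain ⟨t, h3, -, -, h5⟩ := param hb h0 hPQ
        obtain ⟨t', h3', -, -, h5'⟩ := param hb h0 hPQ'
        simp only at he
        rw [h3, h3', h5, h5', he]
    exact_mod_cast h2
  · norm_num

end Pool.Agent.SGJ
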